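import Mathlib
import Pool.Agent.W662.KKS.Defs2
import Pool.Agent.Helper278.RGNC
import Pool.Agent.Helper278.GroupMain
import Pool.Agent.Helper467.FP.P_vn_dense

set_option autoImplicit false
set_option linter.unusedSectionVars false

open scoped InnerProductSpace Topology ENNReal ComplexOrder
open Filter Pool.Agent.Helper278 Pool.Agent.W662.KKS

namespace Pool.Agent.W393.KKS

section

variable {H : Type} [NormedAddCommGroup H] [InnerProductSpace ℂ H] [CompleteSpace H]

omit [CompleteSpace H] in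
theorem norm_sq_l2 (F : lp (fun _ : ℕ => H) 2) : ‖F‖ ^ 2 = ∑' k, ‖F k‖ ^ 2 := by
  have h := lp.norm_rpow_eq_tsum (p := 2) (by norm_num) F
  simpa using h

/-- an element of `M` which is a limit in the 2-norm of elements of a von Neumann subalgebra `P`
belongs to `P` -/
theorem mem_of_two_norm (M P : VonNeumannAlgebra H) (ξ : ℕ → H)
    (hf : ∀ q ∈ M, (∀ k, q (ξ k) = 0) → q = 0) (x : H →L[ℂ] H) (hx : x ∈ M)
    (y : ℕ → (H →L[ℂ] H)) (hy : ∀ n, y n ∈ P) (hPM : ∀ z ∈ P, z ∈ M)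
    (h1 : ∀ k, Tendsto (fun n => y n (ξ k)) atTop (𝓝 (x (ξ k))))
    (h2 : ∀ k, Tendsto (fun n => star (y n) (ξ k)) atTop (𝓝 (star x (ξ k)))) : x ∈ P := by
  -- the dense subspace
  obtain ⟨S, hS⟩ : ∃ S : Submodule ℂ H,
      S = Submodule.span ℂ {v | ∃ t ∈ M.commutant, ∃ k, v = t (ξ k)} := ⟨_, rfl⟩
  have hgen : ∀ t ∈ M.commutant, ∀ k, t (ξ k) ∈ S := fun t ht k => by
    rw [hS]; exact Submodule.subset_span ⟨t, ht, k, rfl⟩
  have hind : ∀ P : H → Prop, P 0 → (∀ u v, P u → P v → P (u + v)) → (∀ (c : ℂ) u, P u → P (c • u)) →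
      (∀ t ∈ M.commutant, ∀ k, P (t (ξ k))) → ∀ v ∈ S, P v := by
    intro P h0 ha hs hg v hv
    rw [hS] at hv
    induction hv using Submodule.span_induction with
    | mem x hx => obtain ⟨t, ht, k, rfl⟩ := hx; exact hg t ht k
    | zero => exact h0
    | add x y _ _ hx hy => exact ha x y hx hy
    | smul c x _ hx => exact hs c x hx
  have hdense : S.topologicalClosure = ⊤ := by
    obtain ⟨K, hK⟩ : ∃ K : Submodule ℂ H, K = S.topologicalClosure := ⟨_, rfl⟩
    have hKc : IsClosed (K : Set H) := by rw [hK]; exact Submodule.isClosed_topologicalClosure _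
    have : CompleteSpace K := hKc.completeSpace_coe
    have hSK : ∀ v ∈ S, v ∈ K := fun v hv => by rw [hK]; exact Submodule.le_topologicalClosure _ hv
    have hinv : ∀ t ∈ M.commutant, ∀ v ∈ K, t v ∈ K := by
      intro t ht v hv
      have g1 : S ≤ K.comap (t : H →ₗ[ℂ] H) := by
        intro w hw
        refine hind (fun w => t w ∈ K) ?_ ?_ ?_ ?_ w hw
        · simp only [map_zero]; exact K.zero_mem
        · intro u v hu hv
          simp only [map_add]; exact K.add_mem hu hv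
        · intro c u hu
          simp only [map_smul]; exact K.smul_mem c hu
        · intro s hs k
          exact hSK _ (hgen (t * s) (mul_mem ht hs) k)
      have g2 : IsClosed ((K.comap (t : H →ₗ[ℂ] H) : Submodule ℂ H) : Set H) :=
        hKc.preimage t.continuous
      rw [hK] at hv
      exact Submodule.topologicalClosure_minimal _ g1 g2 hv
    have hq : K.starProjection ∈ M := by
      rw [← VonNeumannAlgebra.commutant_commutant M, VonNeumannAlgebra.mem_commutant_iff]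
      intro t ht
      exact (commute_starProjection K t (hinv t ht) (hinv (star t) (star_mem ht))).symm
    have hz : 1 - K.starProjection = 0 := by
      apply hf _ (sub_mem (one_mem M) hq)
      intro k
      have : ξ k ∈ K := hSK _ (hgen 1 (one_mem M.commutant) k)
      show ξ k - K.starProjection (ξ k) = 0
      rw [Submodule.starProjection_eq_self_iff.mpr this, sub_self]
    have hz' : K.starProjection = 1 := (sub_eq_zero.1 hz).symm
    rw [← hK, eq_top_iff]
    intro v _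
    have : K.starProjection v = v := by rw [hz']; rfl
    exact Submodule.starProjection_eq_self_iff.mp this
  have hcomm : ∀ z ∈ M, ∀ t ∈ M.commutant, ∀ v, z (t v) = t (z v) := by
    intro z hz t ht v
    rw [VonNeumannAlgebra.mem_commutant_iff] at ht
    exact congrArg (fun T : H →L[ℂ] H => T v) (ht z hz)
  have L1 : ∀ v ∈ S, Tendsto (fun n => y n v) atTop (𝓝 (x v)) := by
    apply hind
    · simp
    · intro u v hu hv
      simp only [map_add]; exact hu.add hv
    · intro c u hu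
      simp only [map_smul]; exact hu.const_smul c
    · intro t ht k
      rw [hcomm x hx t ht]
      have := (t.continuous.tendsto _).comp (h1 k)
      refine this.congr fun n => ?_
      exact (hcomm _ (hPM _ (hy n)) t ht _).symm
  have L2 : ∀ v ∈ S, Tendsto (fun n => star (y n) v) atTop (𝓝 (star x v)) := by
    apply hind
    · simp
    · intro u v hu hv
      simp only [map_add]; exact hu.add hv
    · intro c u hu
      simp only [map_smul]; exact hu.const_smul c
    · intro t ht k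
      rw [hcomm _ (star_mem hx) t ht]
      have := (t.continuous.tendsto _).comp (h2 k)
      refine this.congr fun n => ?_
      exact (hcomm _ (star_mem (hPM _ (hy n))) t ht _).symm
  have hadj : ∀ (T : H →L[ℂ] H) (a b : H), ⟪a, T b⟫_ℂ = ⟪star T a, b⟫_ℂ := fun T a b => by
    rw [ContinuousLinearMap.star_eq_adjoint, ContinuousLinearMap.adjoint_inner_left]
  rw [← VonNeumannAlgebra.commutant_commutant P, VonNeumannAlgebra.mem_commutant_iff]
  intro r hr
  rw [VonNeumannAlgebra.mem_commutant_iff] at hr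
  have key : ∀ v ∈ S, ∀ w ∈ S, ⟪w, (r * x) v⟫_ℂ = ⟪w, (x * r) v⟫_ℂ := by
    intro v hv w hw
    have t1 : Tendsto (fun n => ⟪w, r (y n v)⟫_ℂ) atTop (𝓝 ⟪w, r (x v)⟫_ℂ) :=
      tendsto_const_nhds.inner ((r.continuous.tendsto _).comp (L1 v hv))
    have t2 : Tendsto (fun n => ⟪star (y n) w, r v⟫_ℂ) atTop (𝓝 ⟪star x w, r v⟫_ℂ) :=
      (L2 w hw).inner tendsto_const_nhds
    rw [← hadj] at t2
    refine tendsto_nhds_unique t1 (t2.congr fun n => ?_)
    rw [← hadj]
    exact congrArg (fun T : H →L[ℂ] H => ⟪w, T v⟫_ℂ) (hr _ (hy n))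
  have hcl : ∀ v : H, v ∈ closure (S : Set H) := by
    intro v
    have : v ∈ S.topologicalClosure := by rw [hdense]; trivial
    exact this
  have key2 : ∀ v ∈ S, (r * x) v = (x * r) v := by
    intro v hv
    apply ext_inner_left ℂ
    intro w
    have hc : IsClosed {w : H | ⟪w, (r * x) v⟫_ℂ = ⟪w, (x * r) v⟫_ℂ} :=
      isClosed_eq (by fun_prop) (by fun_prop)
    exact closure_minimal (fun w hw => key v hv w hw) hc (hcl w)
  ext v
  have hc : IsClosed {v : H | (r * x) v = (x * r) v} :=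
    isClosed_eq (by fun_prop) (by fun_prop)
  exact closure_minimal (fun w hw => key2 w hw) hc (hcl v)

/-- an isomorphism of II₁ factors preserves the traces -/
theorem trace_iso (M N : VonNeumannAlgebra H) (τ : Elt M → ℂ) (σ : Elt N → ℂ)
    (hM : IsIIOneFactor M τ) (hN : IsIIOneFactor N σ) (θ : Elt M ≃⋆ₐ[ℂ] Elt N) (x : Elt M) :
    σ (θ x) = τ x := by
  obtain ⟨T, hT⟩ : ∃ T : TracialState M, ∀ x, T.τ x = τ x :=
    ⟨mkState M τ hM.normal hM.trace, fun x => rfl⟩
  obtain ⟨T', hT'⟩ : ∃ T' : TracialState N, ∀ x, T'.τ x = σ x :=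
    ⟨mkState N σ hN.normal hN.trace, fun x => rfl⟩
  have hA := trAlg T
  have hA' := trAlg T'
  have hL : LyapProp T.τ := lyapProp T (diffuse_of_factor T hM.center hM.infinite)
  let φ : Elt M →ₗ[ℂ] ℂ :=
    { toFun := fun x => T'.τ (θ x)
      map_add' := fun a b => by rw [map_add, map_add]
      map_smul' := fun c a => by rw [map_smul, map_smul]; rfl }
  have hφ : IsTr φ := by
    refine ⟨?_, ?_, ?_⟩
    · show T'.τ (θ 1) = 1
      rw [map_one]; exact T'.map_one
    · intro a b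
      show T'.τ (θ (a * b)) = T'.τ (θ (b * a))
      rw [map_mul θ, map_mul θ]; exact T'.tracial _ _
    · intro a
      show 0 ≤ T'.τ (θ (star a * a))
      rw [map_mul θ, map_star]; exact hA'.nonneg _
  have := RG.trace_unique_base T hL hM.center φ hφ x
  rw [← hT, ← hT']
  exact this

/-- the image of a von Neumann subalgebra of a II₁ factor under an isomorphism -/
theorem exists_image (M N : VonNeumannAlgebra H) (τ : Elt M → ℂ) (σ : Elt N → ℂ)
    (hM : IsIIOneFactor M τ) (hN : IsIIOneFactor N σ) (θ : Elt M ≃⋆ₐ[ℂ] Elt N)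
    (P : VonNeumannAlgebra H) (hP : ∀ x ∈ P, x ∈ M) :
    ∃ Q : VonNeumannAlgebra H, (∀ x ∈ Q, x ∈ N) ∧
      ∀ x : Elt M, ((θ x : Elt N) : H →L[ℂ] H) ∈ Q ↔ (x : H →L[ℂ] H) ∈ P := by
  have htr := trace_iso M N τ σ hM hN θ
  obtain ⟨T, hT⟩ : ∃ T : TracialState M, ∀ x, T.τ x = τ x :=
    ⟨mkState M τ hM.normal hM.trace, fun x => rfl⟩
  obtain ⟨T', hT'⟩ : ∃ T' : TracialState N, ∀ x, T'.τ x = σ x :=
    ⟨mkState N σ hN.normal hN.trace, fun x => rfl⟩
  obtain ⟨ξ, hξ, hξT⟩ := T.normal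
  obtain ⟨ζ, hζ, hζT⟩ := T'.normal
  let S : StarSubalgebra ℂ (H →L[ℂ] H) :=
    ((P.toStarSubalgebra.comap M.toStarSubalgebra.subtype).map
      (θ : Elt M →⋆ₐ[ℂ] Elt N)).map N.toStarSubalgebra.subtype
  have hS : ∀ y, y ∈ S ↔ ∃ x : Elt M, (x : H →L[ℂ] H) ∈ P ∧ ((θ x : Elt N) : H →L[ℂ] H) = y := by
    intro y
    constructor
    · intro hy
      obtain ⟨z, hz, rfl⟩ := StarSubalgebra.mem_map.1 hy
      obtain ⟨x, hx, rfl⟩ := StarSubalgebra.mem_map.1 hz
      exact ⟨x, hx, rfl⟩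
    · rintro ⟨x, hx, rfl⟩
      exact StarSubalgebra.mem_map.2 ⟨θ x, StarSubalgebra.mem_map.2 ⟨x, hx, rfl⟩, rfl⟩
  have hSN : ∀ y ∈ S, y ∈ N := by
    intro y hy
    obtain ⟨x, hx, rfl⟩ := (hS y).1 hy
    exact (θ x).2
  -- the bicommutant
  have hbi : ∀ y : H →L[ℂ] H, (∀ e : H →L[ℂ] H, (∀ z ∈ S, z * e = e * z) → e * y = y * e) →
      y ∈ S := by
    intro y hy
    have hyN : y ∈ N := by
      rw [← VonNeumannAlgebra.commutant_commutant N, VonNeumannAlgebra.mem_commutant_iff]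
      intro e he
      rw [VonNeumannAlgebra.mem_commutant_iff] at he
      exact hy e (fun z hz => he z (hSN z hz))
    obtain ⟨x, hx⟩ : ∃ x : Elt M, θ x = ⟨y, hyN⟩ := θ.surjective _
    have hmem : Memℓp ζ 2 := by
      apply memℓp_gen
      simpa using hζ
    obtain ⟨Z, hZ⟩ : ∃ Z : lp (fun _ : ℕ => H) 2, ∀ k, Z k = ζ k := ⟨⟨ζ, hmem⟩, fun k => rfl⟩
    have happ : ∀ n : ℕ, ∃ z ∈ S, ‖Pool.Agent.H467F.vnd_D y Z - Pool.Agent.H467F.vnd_D z Z‖ <
        1 / ((n : ℝ) + 1) := fun n =>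
      Pool.Agent.H467F.vnd_main S y hy Z _ (by positivity)
    choose z hz1 hz2 using happ
    have hz3 : ∀ n, ∃ w : Elt M, (w : H →L[ℂ] H) ∈ P ∧ ((θ w : Elt N) : H →L[ℂ] H) = z n :=
      fun n => (hS _).1 (hz1 n)
    choose w hw1 hw2 using hz3
    -- the 2-norms
    have hnorm : ∀ n, T.τ (star (x - w n) * (x - w n)) =
        ((‖Pool.Agent.H467F.vnd_D y Z - Pool.Agent.H467F.vnd_D (z n) Z‖ ^ 2 : ℝ) : ℂ) := by
      intro n
      have e1 : T.τ (star (x - w n) * (x - w n)) =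
          T'.τ (star (θ (x - w n)) * θ (x - w n)) := by
        rw [hT, hT', ← map_star, ← map_mul, htr]
      rw [e1, tau_star_mul T' ζ hζ hζT]
      congr 1
      rw [← Pool.Agent.H467F.vnd_D_sub, norm_sq_l2]
      congr 1
      funext k
      have e2 : ((θ (x - w n) : Elt N) : H →L[ℂ] H) = y - z n := by
        rw [map_sub, hx, ← hw2 n]; rfl
      rw [e2, Pool.Agent.H467F.vnd_D_apply, hZ]
    have hbound : ∀ n k, ‖((x : H →L[ℂ] H) - (w n : H →L[ℂ] H)) (ξ k)‖ ≤ 1 / ((n : ℝ) + 1) ∧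
        ‖(star (x : H →L[ℂ] H) - star (w n : H →L[ℂ] H)) (ξ k)‖ ≤ 1 / ((n : ℝ) + 1) := by
      have gen : ∀ (v : Elt M) (r : ℝ), 0 ≤ r → T.τ (star v * v) = ((r ^ 2 : ℝ) : ℂ) →
          ∀ k, ‖(v : H →L[ℂ] H) (ξ k)‖ ≤ r := by
        intro v r hr hv k
        rw [tau_star_mul T ξ hξ hξT] at hv
        have h1 : (∑' k, ‖(v : H →L[ℂ] H) (ξ k)‖ ^ 2) = r ^ 2 := by exact_mod_cast hv
        have h2 := (summable_norm_apply ξ hξ (v : H →L[ℂ] H)).le_tsum k (fun _ _ => sq_nonneg _)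
        rw [h1] at h2
        exact (sq_le_sq₀ (norm_nonneg _) hr).1 h2
      intro n k
      have a1 := hnorm n
      have a2 : T.τ (star (star (x - w n)) * star (x - w n)) =
          ((‖Pool.Agent.H467F.vnd_D y Z - Pool.Agent.H467F.vnd_D (z n) Z‖ ^ 2 : ℝ) : ℂ) := by
        rw [star_star, T.tracial, a1]
      have b1 := gen _ _ (norm_nonneg _) a1 k
      have b2 := gen _ _ (norm_nonneg _) a2 k
      refine ⟨b1.trans (hz2 n).le, ?_⟩
      have e3 : ((star (x - w n) : Elt M) : H →L[ℂ] H) =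
          star (x : H →L[ℂ] H) - star (w n : H →L[ℂ] H) := by
        rw [← star_sub]; rfl
      rw [e3] at b2
      exact b2.trans (hz2 n).le
    have hxP : (x : H →L[ℂ] H) ∈ P := by
      refine mem_of_two_norm M P ξ ?_ _ x.2 (fun n => (w n : H →L[ℂ] H)) hw1 hP ?_ ?_
      · intro q hq hq0
        have h1 : T.τ (star (⟨q, hq⟩ : Elt M) * ⟨q, hq⟩) = 0 := by
          rw [tau_star_mul T ξ hξ hξT]
          have : (∑' k, ‖((⟨q, hq⟩ : Elt M) : H →L[ℂ] H) (ξ k)‖ ^ 2) = 0 := by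
            have e : ∀ k, ‖((⟨q, hq⟩ : Elt M) : H →L[ℂ] H) (ξ k)‖ ^ 2 = 0 := fun k => by
              show ‖q (ξ k)‖ ^ 2 = 0
              rw [hq0 k]; simp
            simp only [e, tsum_zero]
          rw [this]; rfl
        exact congrArg Subtype.val (T.faithful _ h1)
      · intro k
        rw [tendsto_iff_norm_sub_tendsto_zero]
        refine squeeze_zero (fun _ => norm_nonneg _) (fun n => ?_)
          tendsto_one_div_add_atTop_nhds_zero_nat
        rw [norm_sub_rev]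
        exact (hbound n k).1
      · intro k
        rw [tendsto_iff_norm_sub_tendsto_zero]
        refine squeeze_zero (fun _ => norm_nonneg _) (fun n => ?_)
          tendsto_one_div_add_atTop_nhds_zero_nat
        rw [norm_sub_rev]
        exact (hbound n k).2
    exact (hS y).2 ⟨x, hxP, by rw [hx]⟩
  let Q : VonNeumannAlgebra H :=
    { toStarSubalgebra := S
      centralizer_centralizer' := by
        apply Set.Subset.antisymm
        · intro y hy
          apply hbi
          intro e he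
          exact hy e (fun z hz => he z hz)
        · exact Set.subset_centralizer_centralizer }
  refine ⟨Q, fun x hx => hSN x hx, fun x => ?_⟩
  constructor
  · intro h
    obtain ⟨x', hx', h'⟩ := (hS _).1 h
    have : x' = x := θ.injective (Subtype.ext h')
    rw [← this]; exact hx'
  · intro h
    exact (hS _).2 ⟨x, h, rfl⟩

theorem pDim_le (M N : VonNeumannAlgebra H) (τ : Elt M → ℂ) (σ : Elt N → ℂ)
    (θ : Elt M ≃⋆ₐ[ℂ] Elt N) (P Q : VonNeumannAlgebra H) (htr : ∀ x, σ (θ x) = τ x)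
    (hPQ : ∀ x : Elt M, ((θ x : Elt N) : H →L[ℂ] H) ∈ Q ↔ (x : H →L[ℂ] H) ∈ P) {K : Type}
    [NormedAddCommGroup K] [InnerProductSpace ℂ K] [CompleteSpace K]
    (π : Elt M →⋆ₐ[ℂ] (K →L[ℂ] K)) (π' : Elt N →⋆ₐ[ℂ] (K →L[ℂ] K))
    (hπ : ∀ x, π' (θ x) = π x) : pDim M τ P π ≤ pDim N σ Q π' := by
  unfold pDim
  refine iSup_le fun n => iSup_le fun ξ => iSup_le fun e => iSup_le fun h => ?_
  have h' : PFam N σ Q π' ξ (fun i => θ (e i)) := by
    refine ⟨fun i => (hPQ _).2 (h.mem i), fun i => ?_, fun i x hx => ?_, fun i j hij x hx => ?_⟩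
    · rw [← map_star, (h.isProj i).1, ← map_mul, (h.isProj i).2]
      exact ⟨rfl, rfl⟩
    · obtain ⟨y, hy⟩ : ∃ y, θ y = x := θ.surjective x
      subst hy
      rw [hπ, ← map_mul, htr]
      exact h.state i y ((hPQ y).1 hx)
    · obtain ⟨y, hy⟩ : ∃ y, θ y = x := θ.surjective x
      subst hy
      rw [hπ]
      exact h.orth i j hij y ((hPQ y).1 hx)
  refine le_trans ?_ (le_iSup_of_le n (le_iSup_of_le ξ (le_iSup_of_le (fun i => θ (e i))
    (le_iSup_of_le h' le_rfl))))
  refine Finset.sum_le_sum fun i _ => ?_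
  rw [htr]

end

theorem ind : S_IND := by
  intro H _ _ _ M N τ σ hM hN ⟨θ⟩ d ⟨P, hP, hPc, K, _, _, _, π, Ω, hG, hd⟩
  obtain ⟨Q, hQ, hPQ⟩ := exists_image M N τ σ hM hN θ P hP
  have htr := trace_iso M N τ σ hM hN θ
  refine ⟨Q, hQ, ?_, K, inferInstance, inferInstance, inferInstance,
    π.comp (θ.symm : Elt N →⋆ₐ[ℂ] Elt M), Ω, ?_, ?_⟩
  · intro z hz hzc
    obtain ⟨x, hx⟩ : ∃ x : Elt M, θ x = ⟨z, hQ z hz⟩ := θ.surjective _
    have hxP : (x : H →L[ℂ] H) ∈ P := by
      rw [← hPQ, hx]; exact hz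
    obtain ⟨c, hc⟩ := hPc x hxP (fun y hy => by
      have h1 := hzc _ ((hPQ ⟨y, hP y hy⟩).2 hy)
      have h2 : θ x * θ ⟨y, hP y hy⟩ = θ ⟨y, hP y hy⟩ * θ x := by
        rw [hx]
        exact Subtype.ext h1
      rw [← map_mul, ← map_mul] at h2
      exact congrArg Subtype.val (θ.injective h2))
    refine ⟨c, ?_⟩
    have h3 : x = c • (1 : Elt M) := Subtype.ext hc
    rw [h3, map_smul, map_one] at hx
    exact (congrArg Subtype.val hx).symm
  · refine ⟨fun x => ?_, fun v ε hε => ?_⟩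
    · show ⟪Ω, π (θ.symm x) Ω⟫_ℂ = σ x
      rw [hG.state, ← htr, θ.apply_symm_apply]
    · obtain ⟨x, hx⟩ := hG.cyc v ε hε
      refine ⟨θ x, ?_⟩
      show ‖v - π (θ.symm (θ x)) Ω‖ ≤ ε
      rw [θ.symm_apply_apply]; exact hx
  · rw [← hd]
    have hs : ∀ x : Elt N, ((θ.symm x : Elt M) : H →L[ℂ] H) ∈ P ↔ (x : H →L[ℂ] H) ∈ Q := by
      intro x
      rw [← hPQ, θ.apply_symm_apply]
    apply le_antisymm
    · exact pDim_le N M σ τ θ.symm Q P (fun x => by rw [← htr, θ.apply_symm_apply]) hs _ _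
        (fun x => rfl)
    · refine pDim_le M N τ σ θ P Q htr hPQ _ _ (fun x => ?_)
      show π (θ.symm (θ x)) = π x
      rw [θ.symm_apply_apply]

end Pool.Agent.W393.KKS
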