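import Mathlib

set_option autoImplicit false
set_option linter.unusedSectionVars false

open scoped InnerProductSpace

namespace Pool.Agent.W393.KKS.GS

section

variable {H K : Type} [NormedAddCommGroup H] [InnerProductSpace ℂ H] [CompleteSpace H]
  [NormedAddCommGroup K] [InnerProductSpace ℂ K] [CompleteSpace K]

/-- compression of an operator along an isometry -/
noncomputable def cp (V : K →L[ℂ] H) (T : H →L[ℂ] H) : K →L[ℂ] K :=
  (ContinuousLinearMap.adjoint V) ∘L T ∘L V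

/-- the operator `V S V*` -/
noncomputable def lf (V : K →L[ℂ] H) (S : K →L[ℂ] K) : H →L[ℂ] H :=
  V ∘L S ∘L (ContinuousLinearMap.adjoint V)

theorem cp_apply (V : K →L[ℂ] H) (T : H →L[ℂ] H) (k : K) :
    cp V T k = ContinuousLinearMap.adjoint V (T (V k)) := rfl

theorem lf_apply (V : K →L[ℂ] H) (S : K →L[ℂ] K) (v : H) :
    lf V S v = V (S (ContinuousLinearMap.adjoint V v)) := rfl

/-- `V` is an isometry with range projection `e` -/
structure Cor (V : K →L[ℂ] H) (e : H →L[ℂ] H) : Prop where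
  nv : ∀ k, ‖V k‖ = ‖k‖
  vv : ∀ k, ContinuousLinearMap.adjoint V (V k) = k
  ve : ∀ v, V (ContinuousLinearMap.adjoint V v) = e v

theorem cor_of (V : K →L[ℂ] H) (e : H →L[ℂ] H) (hn : ∀ k, ‖V k‖ = ‖k‖)
    (he : star e = e) (h1 : ∀ k, e (V k) = V k) (h2 : ∀ v, ∃ k, V k = e v) : Cor V e := by
  have hvv : ∀ k, ContinuousLinearMap.adjoint V (V k) = k := by
    have h := (ContinuousLinearMap.norm_map_iff_adjoint_comp_self V).1 hn
    intro k
    exact congrArg (fun T : K →L[ℂ] K => T k) h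
  refine ⟨hn, hvv, fun v => ?_⟩
  obtain ⟨k, hk⟩ := h2 v
  have h3 : ContinuousLinearMap.adjoint V v = ContinuousLinearMap.adjoint V (e v) := by
    apply ext_inner_right ℂ
    intro k'
    rw [ContinuousLinearMap.adjoint_inner_left, ContinuousLinearMap.adjoint_inner_left]
    have : ⟪e v, V k'⟫_ℂ = ⟪v, e (V k')⟫_ℂ := by
      conv_lhs => rw [← he, ContinuousLinearMap.star_eq_adjoint,
        ContinuousLinearMap.adjoint_inner_left]
    rw [this, h1]
  rw [h3, ← hk, hvv]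

variable {V : K →L[ℂ] H} {e : H →L[ℂ] H}

theorem Cor.ev (h : Cor V e) (k : K) : e (V k) = V k := by rw [← h.ve, h.vv]

theorem Cor.inj (h : Cor V e) {k k' : K} (hk : V k = V k') : k = k' := by
  rw [← h.vv k, hk, h.vv]

theorem Cor.spec (h : Cor V e) {T : H →L[ℂ] H} (hT : Commute T e) (k : K) :
    V (cp V T k) = T (V k) := by
  rw [cp_apply, h.ve]
  have h1 : e (T (V k)) = T (e (V k)) := congrArg (fun S : H →L[ℂ] H => S (V k)) hT.eq.symm
  rw [h1, h.ev]

theorem Cor.uniq (h : Cor V e) {T : H →L[ℂ] H} {z : K →L[ℂ] K} (hz : ∀ k, V (z k) = T (V k)) :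
    z = cp V T := by
  ext k
  rw [cp_apply, ← hz, h.vv]

theorem Cor.cp_mul (h : Cor V e) {S T : H →L[ℂ] H} (hT : Commute T e) :
    cp V (S * T) = cp V S * cp V T := by
  ext k
  show ContinuousLinearMap.adjoint V (S (T (V k))) = ContinuousLinearMap.adjoint V (S (V (cp V T k)))
  rw [h.spec hT]

theorem Cor.cp_one (h : Cor V e) : cp V (1 : H →L[ℂ] H) = 1 := by
  ext k
  exact h.vv k

theorem cp_sub (V : K →L[ℂ] H) (S T : H →L[ℂ] H) : cp V (S - T) = cp V S - cp V T := by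
  ext k
  simp [cp_apply]

theorem cp_star (V : K →L[ℂ] H) (T : H →L[ℂ] H) : cp V (star T) = star (cp V T) := by
  rw [ContinuousLinearMap.star_eq_adjoint, ContinuousLinearMap.star_eq_adjoint]
  unfold cp
  rw [ContinuousLinearMap.adjoint_comp, ContinuousLinearMap.adjoint_comp,
    ContinuousLinearMap.adjoint_adjoint, ContinuousLinearMap.comp_assoc]

theorem Cor.nadj (h : Cor V e) (v : H) : ‖ContinuousLinearMap.adjoint V v‖ ≤ ‖v‖ := by
  have h1 : ‖V‖ ≤ 1 := ContinuousLinearMap.opNorm_le_bound _ (by norm_num) (fun k => by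
    rw [h.nv, one_mul])
  have h2 : ‖ContinuousLinearMap.adjoint V‖ = ‖V‖ :=
    LinearIsometryEquiv.norm_map ContinuousLinearMap.adjoint V
  calc ‖ContinuousLinearMap.adjoint V v‖ ≤ ‖ContinuousLinearMap.adjoint V‖ * ‖v‖ :=
        ContinuousLinearMap.le_opNorm _ _
    _ ≤ 1 * ‖v‖ := by rw [h2]; gcongr
    _ = ‖v‖ := one_mul _

theorem Cor.norm_cp (h : Cor V e) (T : H →L[ℂ] H) : ‖cp V T‖ ≤ ‖T‖ := by
  refine ContinuousLinearMap.opNorm_le_bound _ (norm_nonneg _) (fun k => ?_)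
  rw [cp_apply]
  calc ‖ContinuousLinearMap.adjoint V (T (V k))‖ ≤ ‖T (V k)‖ := h.nadj _
    _ ≤ ‖T‖ * ‖V k‖ := ContinuousLinearMap.le_opNorm _ _
    _ = ‖T‖ * ‖k‖ := by rw [h.nv]

theorem Cor.norm_lf (h : Cor V e) (S : K →L[ℂ] K) : ‖lf V S‖ ≤ ‖S‖ := by
  refine ContinuousLinearMap.opNorm_le_bound _ (norm_nonneg _) (fun v => ?_)
  rw [lf_apply, h.nv]
  calc ‖S (ContinuousLinearMap.adjoint V v)‖ ≤ ‖S‖ * ‖ContinuousLinearMap.adjoint V v‖ :=
        ContinuousLinearMap.le_opNorm _ _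
    _ ≤ ‖S‖ * ‖v‖ := by gcongr; exact h.nadj _

theorem Cor.cp_lf (h : Cor V e) (S : K →L[ℂ] K) : cp V (lf V S) = S := by
  ext k
  rw [cp_apply, lf_apply, h.vv, h.vv]

theorem Cor.adj_apply (h : Cor V e) {T : H →L[ℂ] H} (hT : Commute T e) (v : H) :
    ContinuousLinearMap.adjoint V (T v) = cp V T (ContinuousLinearMap.adjoint V v) := by
  apply h.inj
  rw [h.spec hT, h.ve, h.ve]
  exact congrArg (fun S : H →L[ℂ] H => S v) hT.eq.symm

theorem Cor.lf_comm (h : Cor V e) {T : H →L[ℂ] H} (hT : Commute T e) {S : K →L[ℂ] K}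
    (hS : S * cp V T = cp V T * S) : lf V S * T = T * lf V S := by
  ext v
  show V (S (ContinuousLinearMap.adjoint V (T v))) = T (V (S (ContinuousLinearMap.adjoint V v)))
  rw [h.adj_apply hT, ← h.spec hT]
  exact congrArg (fun R : K →L[ℂ] K => V (R (ContinuousLinearMap.adjoint V v))) hS

end

end Pool.Agent.W393.KKS.GS
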