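import Mathlib
import Pool.Agent.W662.KKS.Stmts3
import Pool.Agent.W393.KKS.Cp

set_option autoImplicit false
set_option linter.unusedSectionVars false

open scoped InnerProductSpace
open Pool.Agent.Helper278 Pool.Agent.W662.KKS Pool.Agent.W393.KKS.GS

namespace Pool.Agent.W393.KKS

section

variable {H : Type} [NormedAddCommGroup H] [InnerProductSpace ℂ H] [CompleteSpace H]

theorem norm_one_le' : ‖(1 : H →L[ℂ] H)‖ ≤ 1 := ContinuousLinearMap.norm_id_le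

theorem unit_norms (w : (H →L[ℂ] H)ˣ) (η : ℝ) (h : ‖(w : H →L[ℂ] H) - 1‖ ≤ η) (hη : η ≤ 1 / 10) :
    ‖(w : H →L[ℂ] H)‖ ≤ 11 / 10 ∧ ‖((w⁻¹ : (H →L[ℂ] H)ˣ) : H →L[ℂ] H)‖ ≤ 10 / 9 := by
  have h1 := norm_one_le' (H := H)
  constructor
  · have : (w : H →L[ℂ] H) = ((w : H →L[ℂ] H) - 1) + 1 := by abel
    rw [this]
    refine (norm_add_le _ _).trans ?_
    linarith
  · obtain ⟨v, hv⟩ : ∃ v : H →L[ℂ] H, v = ((w⁻¹ : (H →L[ℂ] H)ˣ) : H →L[ℂ] H) := ⟨_, rfl⟩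
    have e : v = 1 - ((w : H →L[ℂ] H) - 1) * v := by
      rw [sub_mul, one_mul, hv, Units.mul_inv]; abel
    rw [← hv]
    have h2 : ‖v‖ ≤ 1 + 1 / 10 * ‖v‖ := by
      calc ‖v‖ = ‖1 - ((w : H →L[ℂ] H) - 1) * v‖ := by rw [← e]
        _ ≤ ‖(1 : H →L[ℂ] H)‖ + ‖((w : H →L[ℂ] H) - 1) * v‖ := norm_sub_le _ _
        _ ≤ 1 + ‖(w : H →L[ℂ] H) - 1‖ * ‖v‖ := by
          gcongr
          exact norm_mul_le _ _
        _ ≤ 1 + 1 / 10 * ‖v‖ := by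
          gcongr
          exact h.trans hη
    linarith

/-- elements of the corner act the same way on `p ξ` and on `ξ` -/
theorem comm_corner (ξ : H) (p R x q : H →L[ℂ] H) (hRR : R * R = R) (hpp : p * p = p)
    (hv : R ξ = p ξ) (hx : p * x * p = x) (hq : R * q * R = q) :
    (x * q - q * x) (p ξ) = (x * q - q * x) ξ := by
  have e1 : q * R = q := by
    rw [← hq, mul_assoc, hRR]
  have e2 : x * p = x := by
    rw [← hx, mul_assoc, hpp]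
  have a1 : q (p ξ) = q ξ := by
    rw [← hv]
    exact congrArg (fun T : H →L[ℂ] H => T ξ) e1
  have a2 : x (p ξ) = x ξ := congrArg (fun T : H →L[ℂ] H => T ξ) e2
  show x (q (p ξ)) - q (x (p ξ)) = x (q ξ) - q (x ξ)
  rw [a1, a2]

end

theorem gstep (h1 : S_HSTEP) (h2 : S_CINST) (h3 : S_UKPW) : S_GSTEP := by
  obtain ⟨KH, hKH, hstep⟩ := h1
  obtain ⟨KU, hKU, ukpw⟩ := h3
  have hKK : 1 ≤ KH * KU := one_le_mul_of_one_le_of_one_le hKH hKU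
  refine ⟨1000 * KH * KU, by nlinarith, ?_⟩
  intro H _ _ _ M N ξ ρ A γ w p η δ κ hI hγ hη hK hw hwA hwρ hpA hps hpp hpξ hδ hRD hκ hκδ
  -- numerical facts
  have hK0 : 0 < 1000 * KH * KU := by nlinarith
  have g1 : (γ + η) * (1000 * KH * KU) ≤ 1 := by rwa [le_div_iff₀ hK0] at hK
  have hκδ0 : 0 ≤ κ * δ := by positivity
  have g2 : κ * δ * (1000 * KH * KU) ≤ 1 := by rwa [le_div_iff₀ hK0] at hκδ
  have g5 : (γ + η) * 1000 ≤ 1 := by nlinarith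
  have g3 : η ≤ 1 / 10 := by linarith
  have g4 : γ ≤ 1 / 10 := by linarith
  have hstd := hI.std
  have hpM : p ∈ M := hI.masa.le p hpA
  obtain ⟨R, hR⟩ : ∃ R, R = ρ p := ⟨_, rfl⟩
  have hRs : star R = R := by rw [hR, ← hstd.stm p hpM, hps]
  have hRR : R * R = R := by rw [hR, ← hstd.mul p hpM p hpM, hpp]
  have hpR : Commute p R := by rw [hR]; exact (hstd.comm p hpM p hpM).symm
  have hRξ : R ξ = p ξ := by rw [hR]; exact hstd.vec p hpM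
  have hpn1 : ‖p‖ ≤ 1 := by
    have e1 : ‖p‖ * ‖p‖ = ‖p‖ := by
      conv_rhs => rw [← hpp]
      have := CStarRing.norm_star_mul_self (x := p)
      rw [hps] at this
      exact this.symm
    by_contra hc
    push Not at hc
    nlinarith
  have hξ1 : ‖ξ‖ = 1 := hstd.unit
  have hpξ1 : ‖p ξ‖ ≤ 1 := by
    calc ‖p ξ‖ ≤ ‖p‖ * ‖ξ‖ := ContinuousLinearMap.le_opNorm _ _
      _ ≤ 1 * 1 := by rw [hξ1]; gcongr
      _ = 1 := one_mul _
  have hpξ4 : 1 / 4 ≤ ‖p ξ‖ := by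
    have e1 : ‖(1 - p) ξ‖ ≤ 3 / 4 := by
      by_contra hc
      push Not at hc
      nlinarith
    have e2 : ‖ξ‖ ≤ ‖p ξ‖ + ‖(1 - p) ξ‖ := by
      have : ξ = p ξ + (1 - p) ξ := by
        show ξ = p ξ + (ξ - p ξ)
        abel
      conv_lhs => rw [this]
      exact norm_add_le _ _
    linarith
  have hpξ0 : p ξ ≠ 0 := by
    intro h
    rw [h, norm_zero] at hpξ4
    linarith
  obtain ⟨K, _, _, _, V, M₁, N₁, ξ₁, ρ₁, A₁, hI₁, hVn, hVr, hM₁, hN₁, hM₁', hN₁', hA₁, hξ₁, hρ₁,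
    hnM, hnN, hnN'⟩ := h2 H M N ξ ρ A γ hγ.le g4 hI p hpA hps hpp hpξ0
  rw [← hR] at hVr hM₁' hN₁' hnN'
  have hC : Cor V (p * R) := by
    apply cor_of V _ hVn
    · rw [star_mul, hps, hRs, hpR.eq]
    · intro k
      obtain ⟨a1, a2⟩ := (hVr (V k)).2 ⟨k, rfl⟩
      show p (R (V k)) = V k
      rw [a2, a1]
    · intro v
      apply (hVr _).1
      constructor
      · exact congrArg (fun T : H →L[ℂ] H => T (R v)) hpp
      · have e1 : R * (p * R) = p * R := by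
          rw [← mul_assoc, ← hpR.eq, mul_assoc, hRR]
        exact congrArg (fun T : H →L[ℂ] H => T v) e1
  -- commutation with the projections
  have cA : ∀ a ∈ A, Commute a p ∧ Commute a R := fun a ha =>
    ⟨hI.masa.comm a ha p hpA, by rw [hR]; exact (hstd.comm p hpM a (hI.masa.le a ha)).symm⟩
  have cρ : ∀ a ∈ A, Commute (ρ a) p ∧ Commute (ρ a) R := fun a ha => by
    have haM := hI.masa.le a ha
    refine ⟨hstd.comm a haM p hpM, ?_⟩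
    rw [hR]
    show ρ a * ρ p = ρ p * ρ a
    rw [← hstd.mul p hpM a haM, ← hstd.mul a haM p hpM, hI.masa.comm a ha p hpA]
  have ce : ∀ {T : H →L[ℂ] H}, Commute T p ∧ Commute T R → Commute T (p * R) :=
    fun h => h.1.mul_right h.2
  have cw : Commute (w : H →L[ℂ] H) p ∧ Commute (w : H →L[ℂ] H) R :=
    ⟨hwA p hpA, by rw [hR]; exact hwρ p hpA⟩
  have cwi : Commute ((w⁻¹ : (H →L[ℂ] H)ˣ) : H →L[ℂ] H) p ∧
      Commute ((w⁻¹ : (H →L[ℂ] H)ˣ) : H →L[ℂ] H) R :=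
    ⟨cw.1.units_inv_left, cw.2.units_inv_left⟩
  obtain ⟨w₁, hw₁, hw₁i⟩ : ∃ w₁ : (K →L[ℂ] K)ˣ, (w₁ : K →L[ℂ] K) = cp V w ∧
      ((w₁⁻¹ : (K →L[ℂ] K)ˣ) : K →L[ℂ] K) = cp V ((w⁻¹ : (H →L[ℂ] H)ˣ) : H →L[ℂ] H) :=
    ⟨{ val := cp V w
       inv := cp V ((w⁻¹ : (H →L[ℂ] H)ˣ) : H →L[ℂ] H)
       val_inv := by rw [← hC.cp_mul (ce cwi), Units.mul_inv, hC.cp_one]
       inv_val := by rw [← hC.cp_mul (ce cw), Units.inv_mul, hC.cp_one] }, rfl, rfl⟩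
  have hw₁n : ‖(w₁ : K →L[ℂ] K) - 1‖ ≤ η := by
    rw [hw₁, ← hC.cp_one, ← cp_sub]
    exact (hC.norm_cp _).trans hw
  obtain ⟨nw, nwi⟩ := unit_norms w η hw g3
  obtain ⟨nw₁, nw₁i⟩ := unit_norms w₁ η hw₁n g3
  -- elements of A₁
  have hpa : ∀ a ∈ A, p * a = a → p * a * p = a := fun a ha h => by
    rw [h, (cA a ha).1.eq, h]
  have hA₁' : ∀ u ∈ A₁, ∃ a ∈ A, p * a = a ∧ u = cp V a ∧ ρ₁ u = cp V (ρ a) := by
    intro u hu
    obtain ⟨a, ha, hpa', hVa⟩ := (hA₁ u).1 hu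
    exact ⟨a, ha, hpa', hC.uniq hVa,
      hC.uniq (hρ₁ a (hI.masa.le a ha) (hpa a ha hpa') u hVa)⟩
  have hcw₁ : ∀ u ∈ A₁, Commute (w₁ : K →L[ℂ] K) u ∧ Commute (w₁ : K →L[ℂ] K) (ρ₁ u) := by
    intro u hu
    obtain ⟨a, ha, hpa', h5, h6⟩ := hA₁' u hu
    constructor
    · show (w₁ : K →L[ℂ] K) * u = u * w₁
      rw [h5, hw₁, ← hC.cp_mul (ce (cA a ha)), ← hC.cp_mul (ce cw), hwA a ha]
    · show (w₁ : K →L[ℂ] K) * ρ₁ u = ρ₁ u * w₁
      rw [h6, hw₁, ← hC.cp_mul (ce (cρ a ha)), ← hC.cp_mul (ce cw), hwρ a ha]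
  have hKPU : KPU M₁ ξ₁ ρ₁ (UU A₁) (Pool.Agent.W662.KKS.conj w₁ N₁)
      (Pool.Agent.W662.KKS.conj w₁ N₁.commutant) (KU * (γ + η)) := by
    refine ukpw K M₁ N₁ ξ₁ ρ₁ (UU A₁) w₁ γ η hγ.le (by linarith) hw₁n g3 hI₁.n1 hI₁.n2 hI₁.n3
      hI₁.n4 ?_ ?_
    · intro u hu
      show (w₁ : K →L[ℂ] K) * u * ((w₁⁻¹ : (K →L[ℂ] K)ˣ) : K →L[ℂ] K) ∈ N₁
      rw [(hcw₁ u hu.1).1.eq, mul_assoc, Units.mul_inv, mul_one]
      exact hI₁.AN u hu.1
    · intro u hu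
      show (w₁ : K →L[ℂ] K) * ρ₁ u * ((w₁⁻¹ : (K →L[ℂ] K)ˣ) : K →L[ℂ] K) ∈ N₁.commutant
      rw [(hcw₁ u hu.1).2.eq, mul_assoc, Units.mul_inv, mul_one]
      exact hI₁.AN' u hu.1
  -- comparison of commutators
  have F : ∀ x q : H →L[ℂ] H, p * x * p = x → R * q * R = q → ∀ x₁ q₁ : K →L[ℂ] K,
      (∀ k, V (x₁ k) = x (V k)) → (∀ k, V (q₁ k) = q (V k)) →
      ‖(x * q - q * x) ξ‖ = ‖p ξ‖ * ‖(x₁ * q₁ - q₁ * x₁) ξ₁‖ := by
    intro x q hx hq x₁ q₁ hx₁ hq₁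
    rw [← comm_corner ξ p R x q hRR hpp hRξ hx hq, ← hξ₁, map_smul, norm_smul]
    have e1 : (x * q - q * x) (V ξ₁) = V ((x₁ * q₁ - q₁ * x₁) ξ₁) := by
      show x (q (V ξ₁)) - q (x (V ξ₁)) = V (x₁ (q₁ ξ₁) - q₁ (x₁ ξ₁))
      rw [map_sub, hx₁, hq₁, hq₁, hx₁]
    rw [e1, hVn, hξ₁]
    simp
  -- elements of the corner of N'
  have cN' : ∀ n ∈ N.commutant, R * n * R = n → Commute n p ∧ Commute n R := by
    intro n hn hRn
    constructor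
    · rw [VonNeumannAlgebra.mem_commutant_iff] at hn
      exact (hn p (hI.AN p hpA)).symm
    · show n * R = R * n
      calc n * R = R * n * R * R := by rw [hRn]
        _ = R * n * R := by rw [mul_assoc, hRR]
        _ = R * (R * n * R) := by
          rw [show R * (R * n * R) = (R * R) * n * R by noncomm_ring, hRR]
        _ = R * n := by rw [hRn]
  have hDl : Dl (M₁ : Set (K →L[ℂ] K)) (Pool.Agent.W662.KKS.conj w₁ N₁.commutant) ξ₁ (10 * δ) := by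
    intro x₁ hx₁ q₁ hq₁
    obtain ⟨x, hx, hpx, hVx⟩ := (hM₁ x₁).1 hx₁
    have hxn : ‖x₁‖ = ‖x‖ := hnM x hx hpx x₁ hVx
    obtain ⟨n, hn, hRn, hVn'⟩ := (hN₁' _).1 hq₁
    have hnn := hnN' n hn hRn _ hVn'
    have hcn := cN' n hn hRn
    obtain ⟨q, hq⟩ : ∃ q : H →L[ℂ] H, q = ((w⁻¹ : (H →L[ℂ] H)ˣ) : H →L[ℂ] H) * n * w := ⟨_, rfl⟩
    have hqc : q ∈ Pool.Agent.W662.KKS.conj w N.commutant := by
      show (w : H →L[ℂ] H) * q * ((w⁻¹ : (H →L[ℂ] H)ˣ) : H →L[ℂ] H) ∈ N.commutant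
      have : (w : H →L[ℂ] H) * q * ((w⁻¹ : (H →L[ℂ] H)ˣ) : H →L[ℂ] H) = n := by
        rw [hq, mul_assoc, mul_assoc, mul_assoc, Units.mul_inv, mul_one, ← mul_assoc,
          Units.mul_inv, one_mul]
      rw [this]; exact hn
    have hRq : R * q * R = q := by
      calc R * q * R = (R * ((w⁻¹ : (H →L[ℂ] H)ˣ) : H →L[ℂ] H)) * n * ((w : H →L[ℂ] H) * R) := by
            rw [hq]; noncomm_ring
        _ = ((w⁻¹ : (H →L[ℂ] H)ˣ) : H →L[ℂ] H) * (R * n * R) * w := by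
            rw [← cwi.2.eq, cw.2.eq]; noncomm_ring
        _ = q := by rw [hRn, hq]
    have hq₁' : q₁ = cp V q := by
      have e1 : (w₁ : K →L[ℂ] K) * q₁ * ((w₁⁻¹ : (K →L[ℂ] K)ˣ) : K →L[ℂ] K) = cp V n :=
        hC.uniq hVn'
      have e2 : q₁ = ((w₁⁻¹ : (K →L[ℂ] K)ˣ) : K →L[ℂ] K) *
          ((w₁ : K →L[ℂ] K) * q₁ * ((w₁⁻¹ : (K →L[ℂ] K)ˣ) : K →L[ℂ] K)) * w₁ := by
        rw [mul_assoc, mul_assoc, Units.inv_mul, mul_one, ← mul_assoc, Units.inv_mul, one_mul]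
      rw [e2, e1, hw₁, hw₁i, hq, hC.cp_mul (ce cw), hC.cp_mul (ce hcn)]
    have hcq : Commute q (p * R) := by
      rw [hq]
      exact ((ce cwi).mul_left (ce hcn)).mul_left (ce cw)
    have hF := F x q hpx hRq x₁ q₁ hVx (by rw [hq₁']; exact hC.spec hcq)
    have hD := hRD x hx q hqc hpx (by rw [← hR]; exact hRq)
    rw [hF] at hD
    have hqn : ‖q‖ ≤ 2 * ‖q₁‖ := by
      have e1 : ‖n‖ ≤ 11 / 10 * ‖q₁‖ * (10 / 9) := by
        rw [← hnn]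
        calc ‖(w₁ : K →L[ℂ] K) * q₁ * ((w₁⁻¹ : (K →L[ℂ] K)ˣ) : K →L[ℂ] K)‖
            ≤ ‖(w₁ : K →L[ℂ] K) * q₁‖ * ‖((w₁⁻¹ : (K →L[ℂ] K)ˣ) : K →L[ℂ] K)‖ := norm_mul_le _ _
          _ ≤ ‖(w₁ : K →L[ℂ] K)‖ * ‖q₁‖ * ‖((w₁⁻¹ : (K →L[ℂ] K)ˣ) : K →L[ℂ] K)‖ := by
              gcongr; exact norm_mul_le _ _
          _ ≤ 11 / 10 * ‖q₁‖ * (10 / 9) := by gcongr
      have e2 : ‖q‖ ≤ 10 / 9 * ‖n‖ * (11 / 10) := by
        rw [hq]
        calc ‖((w⁻¹ : (H →L[ℂ] H)ˣ) : H →L[ℂ] H) * n * w‖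
            ≤ ‖((w⁻¹ : (H →L[ℂ] H)ˣ) : H →L[ℂ] H) * n‖ * ‖(w : H →L[ℂ] H)‖ := norm_mul_le _ _
          _ ≤ ‖((w⁻¹ : (H →L[ℂ] H)ˣ) : H →L[ℂ] H)‖ * ‖n‖ * ‖(w : H →L[ℂ] H)‖ := by
              gcongr; exact norm_mul_le _ _
          _ ≤ 10 / 9 * ‖n‖ * (11 / 10) := by gcongr
      nlinarith [norm_nonneg q₁]
    have e3 : 1 / 4 * ‖(x₁ * q₁ - q₁ * x₁) ξ₁‖ ≤ δ * ‖x₁‖ * (2 * ‖q₁‖) := by
      calc 1 / 4 * ‖(x₁ * q₁ - q₁ * x₁) ξ₁‖ ≤ ‖p ξ‖ * ‖(x₁ * q₁ - q₁ * x₁) ξ₁‖ := by gcongr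
        _ ≤ δ * ‖x‖ * ‖q‖ := hD
        _ ≤ δ * ‖x₁‖ * (2 * ‖q₁‖) := by rw [hxn]; gcongr
    have e4 : 0 ≤ δ * ‖x₁‖ * ‖q₁‖ := by positivity
    nlinarith
  -- the step
  obtain ⟨p₁, S₁, hp₁A, hp₁s, hp₁p, hp₁ξ, hS₁n, hS₁A, hS₁ρ, hS₁⟩ :=
    hstep K M₁ ξ₁ ρ₁ A₁ (Pool.Agent.W662.KKS.conj w₁ N₁) (Pool.Agent.W662.KKS.conj w₁ N₁.commutant)
      (KU * (γ + η)) (10 * δ) κ hI₁.std hI₁.masa hKPU (by positivity)
      (by rw [le_div_iff₀ (by positivity)]; nlinarith) (by positivity) hDl hκ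
      (by rw [le_div_iff₀ (by positivity)]; nlinarith)
  obtain ⟨p', hp'A, hpp', hVp'⟩ := (hA₁ p₁).1 hp₁A
  have hp'M : p' ∈ M := hI.masa.le p' hp'A
  have hp'p : p' * p = p' := by rw [(cA p' hp'A).1.eq, hpp']
  have hp₁cp : p₁ = cp V p' := hC.uniq hVp'
  have hzero : ∀ d ∈ M, p * d * p = d → (∀ k, d (V k) = 0) → d = 0 := by
    intro d hd hpd h0
    have := hnM d hd hpd 0 (fun k => by rw [h0 k]; simp)
    rw [norm_zero] at this
    exact norm_eq_zero.1 this.symm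
  have hstp' : star p' * p = star p' := by
    have := congrArg star hpp'
    rwa [star_mul, hps] at this
  have hpst : p * star p' = star p' := by
    have := congrArg star hp'p
    rwa [star_mul, hps] at this
  have hp's : star p' = p' := by
    rw [← sub_eq_zero]
    refine hzero _ (sub_mem (star_mem hp'M) hp'M) ?_ (fun k => ?_)
    · rw [mul_sub, sub_mul, hpst, hstp', hpp', hp'p]
    · show star p' (V k) - p' (V k) = 0
      rw [← hC.spec (ce (cA _ (star_mem hp'A))), cp_star, ← hp₁cp, hp₁s, hVp', sub_self]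
  have hp'p' : p' * p' = p' := by
    rw [← sub_eq_zero]
    refine hzero _ (sub_mem (mul_mem hp'M hp'M) hp'M) ?_ (fun k => ?_)
    · rw [mul_sub, sub_mul, ← mul_assoc p, hpp', mul_assoc, hp'p]
    · show p' (p' (V k)) - p' (V k) = 0
      rw [← hVp', ← hVp', sub_eq_zero]
      exact congrArg (fun T : K →L[ℂ] K => V (T k)) hp₁p
  -- the operator S
  obtain ⟨S, hS⟩ : ∃ S, S = lf V S₁ := ⟨_, rfl⟩
  have hSn : ‖S‖ ≤ KH * κ * (10 * δ) := by rw [hS]; exact (hC.norm_lf _).trans hS₁n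
  have hSA : ∀ a ∈ A, S * a = a * S := by
    intro a ha
    rw [hS]
    apply hC.lf_comm (ce (cA a ha))
    have e1 : cp V a ∈ A₁ := by
      refine (hA₁ _).2 ⟨p * a, mul_mem hpA ha, ?_, fun k => ?_⟩
      · rw [← mul_assoc, hpp]
      · rw [hC.spec (ce (cA a ha))]
        show a (V k) = p (a (V k))
        have : p (a (V k)) = a (p (V k)) :=
          congrArg (fun T : H →L[ℂ] H => T (V k)) (cA a ha).1.eq.symm
        rw [this, ((hVr (V k)).2 ⟨k, rfl⟩).1]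
    exact hS₁A _ e1
  have hSρ : ∀ a ∈ A, S * ρ a = ρ a * S := by
    intro a ha
    have haM := hI.masa.le a ha
    rw [hS]
    apply hC.lf_comm (ce (cρ a ha))
    have e2 : ∀ k, V ((cp V a) k) = (p * a) (V k) := by
      intro k
      rw [hC.spec (ce (cA a ha))]
      show a (V k) = p (a (V k))
      have : p (a (V k)) = a (p (V k)) :=
        congrArg (fun T : H →L[ℂ] H => T (V k)) (cA a ha).1.eq.symm
      rw [this, ((hVr (V k)).2 ⟨k, rfl⟩).1]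
    have e1 : cp V a ∈ A₁ := by
      refine (hA₁ _).2 ⟨p * a, mul_mem hpA ha, ?_, e2⟩
      rw [← mul_assoc, hpp]
    have e3 : ρ₁ (cp V a) = cp V (ρ a) := by
      apply hC.uniq
      intro k
      rw [hρ₁ (p * a) (mul_mem hpM haM)
        (hpa _ (mul_mem hpA ha) (by rw [← mul_assoc, hpp])) (cp V a) e2 k,
        hstd.mul p hpM a haM, ← hR]
      show ρ a (R (V k)) = ρ a (V k)
      rw [((hVr (V k)).2 ⟨k, rfl⟩).2]
    rw [← e3]
    exact hS₁ρ _ e1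
  have hSc : Commute S p ∧ Commute S R := ⟨hSA p hpA, by rw [hR]; exact hSρ p hpA⟩
  have hSn2 : ‖S‖ ≤ 1 / 2 := by
    refine hSn.trans ?_
    nlinarith
  refine ⟨p', S, hp'A, hp's, hp'p', hpp', ?_, ?_, hSA, hSρ, ?_⟩
  · have e1 : (p - p') ξ = (‖p ξ‖ : ℂ) • V ((1 - p₁) ξ₁) := by
      have : (p - p') ξ = (p - p') (p ξ) := by
        show p ξ - p' ξ = p (p ξ) - p' (p ξ)
        have a1 : p (p ξ) = p ξ := congrArg (fun T : H →L[ℂ] H => T ξ) hpp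
        have a2 : p' (p ξ) = p' ξ := congrArg (fun T : H →L[ℂ] H => T ξ) hp'p
        rw [a1, a2]
      have e0 : (p - p') (p ξ) = (‖p ξ‖ : ℂ) • (p - p') (V ξ₁) := by rw [← map_smul, hξ₁]
      rw [this, e0]
      congr 1
      show p (V ξ₁) - p' (V ξ₁) = V (ξ₁ - p₁ ξ₁)
      rw [((hVr (V ξ₁)).2 ⟨ξ₁, rfl⟩).1, map_sub, hVp']
    rw [e1, norm_smul, hVn]
    have e2 : ‖(‖p ξ‖ : ℂ)‖ ≤ 1 := by simpa using hpξ1
    refine le_trans ?_ hp₁ξ
    have e3 : ‖(‖p ξ‖ : ℂ)‖ * ‖(1 - p₁) ξ₁‖ ≤ ‖(1 - p₁) ξ₁‖ := by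
      calc _ ≤ 1 * ‖(1 - p₁) ξ₁‖ := by gcongr
        _ = _ := one_mul _
    gcongr
  · refine hSn.trans ?_
    have : 0 ≤ KH * (κ * δ) := by positivity
    nlinarith
  · intro w' hw' x hx q' hq' hpx hRq'
    obtain ⟨R', hR'⟩ : ∃ R', R' = ρ p' := ⟨_, rfl⟩
    rw [← hR'] at hRq'
    have hR'R' : R' * R' = R' := by rw [hR', ← hstd.mul p' hp'M p' hp'M, hp'p']
    have hRR' : R * R' = R' := by rw [hR, hR', ← hstd.mul p' hp'M p hpM, hp'p]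
    have hR'R : R' * R = R' := by rw [hR, hR', ← hstd.mul p hpM p' hp'M, hpp']
    obtain ⟨W, hW⟩ : ∃ W : H →L[ℂ] H, W = ((w⁻¹ : (H →L[ℂ] H)ˣ) : H →L[ℂ] H) * w' := ⟨_, rfl⟩
    have hWl : W * (1 - S) = 1 := by
      rw [hW, mul_assoc, hw', Units.inv_mul]
    have hWr : (1 - S) * W = 1 := by
      have e1 : (1 - S) = ((w'⁻¹ : (H →L[ℂ] H)ˣ) : H →L[ℂ] H) * w := by
        rw [← hw', ← mul_assoc, Units.inv_mul, one_mul]
      rw [e1, hW, mul_assoc, ← mul_assoc (w : H →L[ℂ] H), Units.mul_inv, one_mul, Units.inv_mul]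
    -- commutation of `1 - S` and `W`
    have c1S : ∀ T : H →L[ℂ] H, Commute S T → Commute (1 - S) T ∧ Commute W T := by
      intro T hT
      have e1 : Commute (1 - S) T := (Commute.one_left T).sub_left hT
      refine ⟨e1, ?_⟩
      show W * T = T * W
      calc W * T = W * (T * ((1 - S) * W)) := by rw [hWr, mul_one]
        _ = W * (T * (1 - S)) * W := by noncomm_ring
        _ = W * ((1 - S) * T) * W := by rw [e1.eq]
        _ = (W * (1 - S)) * T * W := by noncomm_ring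
        _ = T * W := by rw [hWl, one_mul]
    have c1 := c1S p hSc.1
    have c2 := c1S R hSc.2
    have c3 := c1S p' (hSA p' hp'A)
    have c4 := c1S R' (by rw [hR']; exact hSρ p' hp'A)
    have cwR' : Commute (w : H →L[ℂ] H) R' := by rw [hR']; exact hwρ p' hp'A
    -- the element q
    obtain ⟨q, hq⟩ : ∃ q, q = W * q' * (1 - S) := ⟨_, rfl⟩
    have hqq' : (1 - S) * q * W = q' := by
      calc (1 - S) * q * W = ((1 - S) * W) * q' * ((1 - S) * W) := by rw [hq]; noncomm_ring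
        _ = q' := by rw [hWr, one_mul, mul_one]
    obtain ⟨n, hn⟩ : ∃ n, n = (w' : H →L[ℂ] H) * q' * ((w'⁻¹ : (H →L[ℂ] H)ˣ) : H →L[ℂ] H) := ⟨_, rfl⟩
    have hnN : n ∈ N.commutant := by rw [hn]; exact hq'
    have hqn : (w : H →L[ℂ] H) * q * ((w⁻¹ : (H →L[ℂ] H)ˣ) : H →L[ℂ] H) = n := by
      have e1 : (w : H →L[ℂ] H) * W = w' := by
        rw [hW, ← mul_assoc, Units.mul_inv, one_mul]
      have e2 : (1 - S) * ((w⁻¹ : (H →L[ℂ] H)ˣ) : H →L[ℂ] H) =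
          ((w'⁻¹ : (H →L[ℂ] H)ˣ) : H →L[ℂ] H) := by
        have e1 : (1 - S) = ((w'⁻¹ : (H →L[ℂ] H)ˣ) : H →L[ℂ] H) * w := by
          rw [← hw', ← mul_assoc, Units.inv_mul, one_mul]
        rw [e1, mul_assoc, Units.mul_inv, mul_one]
      calc (w : H →L[ℂ] H) * q * ((w⁻¹ : (H →L[ℂ] H)ˣ) : H →L[ℂ] H)
          = ((w : H →L[ℂ] H) * W) * q' * ((1 - S) * ((w⁻¹ : (H →L[ℂ] H)ˣ) : H →L[ℂ] H)) := by
            rw [hq]; noncomm_ring
        _ = n := by rw [e1, e2, hn]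
    have hR'q : R' * q * R' = q := by
      calc R' * q * R' = (R' * W) * q' * ((1 - S) * R') := by rw [hq]; noncomm_ring
        _ = W * (R' * q' * R') * (1 - S) := by
          rw [← c4.2.eq, c4.1.eq]; noncomm_ring
        _ = q := by rw [hRq', hq]
    have hRq : R * q * R = q := by
      calc R * q * R = (R * R') * q * (R' * R) := by
            rw [← hR'q]
            calc R * (R' * q * R') * R = (R * R') * q * (R' * R) := by noncomm_ring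
              _ = (R * R') * (R' * q * R') * (R' * R) := by rw [hR'q]
        _ = q := by rw [hRR', hR'R, hR'q]
    have hRn : R * n * R = n := by
      calc R * n * R = (R * (w : H →L[ℂ] H)) * q *
            (((w⁻¹ : (H →L[ℂ] H)ˣ) : H →L[ℂ] H) * R) := by rw [← hqn]; noncomm_ring
        _ = (w : H →L[ℂ] H) * (R * q * R) * ((w⁻¹ : (H →L[ℂ] H)ˣ) : H →L[ℂ] H) := by
          rw [← cw.2.eq, cwi.2.eq]; noncomm_ring
        _ = n := by rw [hRq, hqn]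
    have hcn := cN' n hnN hRn
    have hqe : q = ((w⁻¹ : (H →L[ℂ] H)ˣ) : H →L[ℂ] H) * n * w := by
      rw [← hqn]
      calc q = (((w⁻¹ : (H →L[ℂ] H)ˣ) : H →L[ℂ] H) * w) * q *
            (((w⁻¹ : (H →L[ℂ] H)ˣ) : H →L[ℂ] H) * w) := by
              rw [Units.inv_mul, one_mul, mul_one]
        _ = _ := by noncomm_ring
    have hcq : Commute q (p * R) := by
      rw [hqe]
      exact ((ce cwi).mul_left (ce hcn)).mul_left (ce cw)
    have hq₁ : cp V q ∈ Pool.Agent.W662.KKS.conj w₁ N₁.commutant := by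
      show (w₁ : K →L[ℂ] K) * cp V q * ((w₁⁻¹ : (K →L[ℂ] K)ˣ) : K →L[ℂ] K) ∈ N₁.commutant
      rw [hw₁, hw₁i, ← hC.cp_mul hcq, ← hC.cp_mul (ce cwi), hqn]
      exact (hN₁' _).2 ⟨n, hnN, hRn, hC.spec (ce hcn)⟩
    -- the element x
    have hxp' : x * p' = x := by
      conv_rhs => rw [← hpx]
      conv_lhs => rw [← hpx]
      rw [mul_assoc, hp'p']
    have hp'x : p' * x = x := by
      conv_rhs => rw [← hpx]
      conv_lhs => rw [← hpx]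
      rw [← mul_assoc, ← mul_assoc, hp'p']
    have hxp : x * p = x := by rw [← hxp', mul_assoc, hp'p]
    have hpx' : p * x = x := by rw [← hp'x, ← mul_assoc, hpp']
    have hpxp : p * x * p = x := by rw [hpx', hxp]
    have hcx : Commute x (p * R) := by
      apply ce
      constructor
      · show x * p = p * x
        rw [hxp, hpx']
      · rw [hR]
        exact (hstd.comm p hpM x hx).symm
    have hx₁ : cp V x ∈ M₁ := (hM₁ _).2 ⟨x, hx, hpxp, hC.spec hcx⟩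
    have hW1l : (1 - S₁) * cp V W = 1 := by
      have e1 : (1 - S₁) = cp V (1 - S) := by rw [cp_sub, hC.cp_one, hS, hC.cp_lf]
      rw [e1, ← hC.cp_mul (ce ⟨c1.2, c2.2⟩), hWr, hC.cp_one]
    have hW1r : cp V W * (1 - S₁) = 1 := by
      have e1 : (1 - S₁) = cp V (1 - S) := by rw [cp_sub, hC.cp_one, hS, hC.cp_lf]
      rw [e1, ← hC.cp_mul (ce ⟨c1.1, c2.1⟩), hWl, hC.cp_one]
    have hp₁x : p₁ * cp V x * p₁ = cp V x := by
      rw [hp₁cp, ← hC.cp_mul hcx, ← hC.cp_mul (ce (cA p' hp'A)), hp'x, hxp']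
    have hρp₁ : ρ₁ p₁ = cp V R' := by
      rw [hR']
      exact hC.uniq (hρ₁ p' hp'M (by rw [hpp', hp'p]) p₁ hVp')
    have hρq : ρ₁ p₁ * cp V q * ρ₁ p₁ = cp V q := by
      rw [hρp₁, ← hC.cp_mul hcq, ← hC.cp_mul (by rw [hR']; exact ce (cρ p' hp'A)), hR'q]
    have hfin := hS₁ (cp V W) hW1l hW1r (cp V x) hx₁ (cp V q) hq₁ hp₁x hρq
    have hq'c : (1 - S₁) * cp V q * cp V W = cp V q' := by
      have e1 : (1 - S₁) = cp V (1 - S) := by rw [cp_sub, hC.cp_one, hS, hC.cp_lf]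
      rw [e1, ← hC.cp_mul hcq, ← hC.cp_mul (ce ⟨c1.2, c2.2⟩), hqq']
    rw [hq'c] at hfin
    have hcq' : Commute q' (p * R) := by
      rw [← hqq']
      exact ((ce ⟨c1.1, c2.1⟩).mul_left hcq).mul_left (ce ⟨c1.2, c2.2⟩)
    have hRq'R : R * q' * R = q' := by
      calc R * q' * R = (R * R') * q' * (R' * R) := by
            conv_lhs => rw [← hRq']
            noncomm_ring
        _ = q' := by rw [hRR', hR'R, hRq']
    rw [F x q' hpxp hRq'R (cp V x) (cp V q') (hC.spec hcx) (hC.spec hcq')]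
    have nW : ‖W‖ ≤ 2 := by
      have e1 : W = 1 + S * W := by
        have : (1 - S) * W = 1 := hWr
        rw [sub_mul, one_mul] at this
        rw [← this]; abel
      have e2 : ‖W‖ ≤ 1 + 1 / 2 * ‖W‖ := by
        calc ‖W‖ = ‖1 + S * W‖ := by rw [← e1]
          _ ≤ ‖(1 : H →L[ℂ] H)‖ + ‖S * W‖ := norm_add_le _ _
          _ ≤ 1 + ‖S‖ * ‖W‖ := by
            gcongr
            · exact norm_one_le'
            · exact norm_mul_le _ _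
          _ ≤ 1 + 1 / 2 * ‖W‖ := by gcongr
      linarith
    have n1S : ‖1 - S‖ ≤ 2 := by
      calc ‖1 - S‖ ≤ ‖(1 : H →L[ℂ] H)‖ + ‖S‖ := norm_sub_le _ _
        _ ≤ 1 + 1 / 2 := by gcongr; exact norm_one_le'
        _ ≤ 2 := by norm_num
    have nq : ‖cp V q‖ ≤ 4 * ‖q'‖ := by
      calc ‖cp V q‖ ≤ ‖q‖ := hC.norm_cp _
        _ ≤ ‖W * q'‖ * ‖1 - S‖ := by rw [hq]; exact norm_mul_le _ _
        _ ≤ ‖W‖ * ‖q'‖ * ‖1 - S‖ := by gcongr; exact norm_mul_le _ _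
        _ ≤ 2 * ‖q'‖ * 2 := by gcongr
        _ = 4 * ‖q'‖ := by ring
    have nx : ‖cp V x‖ ≤ ‖x‖ := hC.norm_cp _
    have hc0 : 0 ≤ KH * (KU * (γ + η) * (10 * δ) + κ * (10 * δ) ^ 2) := by positivity
    calc ‖p ξ‖ * ‖(cp V x * cp V q' - cp V q' * cp V x) ξ₁‖
        ≤ 1 * (KH * (KU * (γ + η) * (10 * δ) + κ * (10 * δ) ^ 2) * ‖cp V x‖ * ‖cp V q‖) := by
          gcongr
      _ ≤ 1 * (KH * (KU * (γ + η) * (10 * δ) + κ * (10 * δ) ^ 2) * ‖x‖ * (4 * ‖q'‖)) := by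
          gcongr
      _ = (40 * (KH * KU) * ((γ + η) * δ) + 400 * KH * (κ * δ ^ 2)) * ‖x‖ * ‖q'‖ := by ring
      _ ≤ (1000 * KH * KU * ((γ + η) * δ + κ * δ ^ 2)) * ‖x‖ * ‖q'‖ := by
          have e1 : 0 ≤ (γ + η) * δ := by positivity
          have e2 : 0 ≤ κ * δ ^ 2 := by positivity
          have e3 : KH ≤ KH * KU := le_mul_of_one_le_right (by linarith) hKU
          gcongr
          nlinarith [mul_nonneg (by linarith : (0:ℝ) ≤ KH * KU) e1,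
            mul_le_mul_of_nonneg_right e3 e2, mul_nonneg (by linarith : (0:ℝ) ≤ KH * KU) e2]

end Pool.Agent.W393.KKS
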