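import Mathlib
import Pool.Agent.W662.KKS.Stmts
import Pool.Agent.Helper278.Wot
import Pool.Agent.Helper278.Factor

set_option autoImplicit false
set_option linter.unusedSectionVars false

open scoped InnerProductSpace Topology ComplexOrder
open Filter Pool.Agent.Helper278

namespace Pool.Agent.W393.KKS

variable {H : Type} [NormedAddCommGroup H] [InnerProductSpace ℂ H] [CompleteSpace H]

theorem wot_lim (x : ℕ → (H →L[ℂ] H)) (R : ℝ) (hR : ∀ n, ‖x n‖ ≤ R) (U : Ultrafilter ℕ) :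
    ∃ z : H →L[ℂ] H, ∀ a b : H, Tendsto (fun n => ⟪a, x n b⟫_ℂ) U (𝓝 ⟪a, z b⟫_ℂ) := by
  obtain ⟨r, hr1, hr2⟩ : ∃ r : ℝ, 0 < r ∧ R ≤ r :=
    ⟨max R 1, lt_max_of_lt_right one_pos, le_max_left _ _⟩
  have h1 := isCompact_iff_ultrafilter_le_nhds.1 (isCompact_wot_ball (H := H))
    (U.map (fun n => ContinuousLinearMapWOT.ofCLM (((r : ℂ)⁻¹) • x n))) (by
      rw [Ultrafilter.coe_map, le_principal_iff, mem_map]
      refine Filter.univ_mem' fun n => ?_
      show ‖((r : ℂ)⁻¹) • x n‖ ≤ 1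
      rw [norm_smul, norm_inv, Complex.norm_real, Real.norm_of_nonneg hr1.le]
      rw [inv_mul_le_iff₀ hr1, mul_one]
      exact (hR n).trans hr2)
  obtain ⟨T, hT, hle⟩ := h1
  refine ⟨(r : ℂ) • T.toCLM, fun a b => ?_⟩
  rw [ContinuousLinearMapWOT.le_nhds_iff_forall_inner_apply_le_nhds] at hle
  have h2 := hle b a
  have h3 : Tendsto (fun n => ⟪a, (((r : ℂ)⁻¹) • x n) b⟫_ℂ) U (𝓝 ⟪a, T b⟫_ℂ) := h2
  have h4 := h3.const_mul (r : ℂ)
  have hr : (r : ℂ) ≠ 0 := by exact_mod_cast hr1.ne'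
  have e1 : (r : ℂ) * ⟪a, T b⟫_ℂ = ⟪a, ((r : ℂ) • T.toCLM) b⟫_ℂ := by
    show (r : ℂ) * ⟪a, T.toCLM b⟫_ℂ = ⟪a, (r : ℂ) • T.toCLM b⟫_ℂ
    rw [inner_smul_right]
  rw [e1] at h4
  refine h4.congr fun n => ?_
  show (r : ℂ) * ⟪a, ((r : ℂ)⁻¹) • x n b⟫_ℂ = _
  rw [inner_smul_right, ← mul_assoc, mul_inv_cancel₀ hr, one_mul]

theorem mem_of_wot (M : VonNeumannAlgebra H) (x : ℕ → (H →L[ℂ] H)) (U : Ultrafilter ℕ)
    (z : H →L[ℂ] H) (hx : ∀ n, x n ∈ M)
    (hz : ∀ a b : H, Tendsto (fun n => ⟪a, x n b⟫_ℂ) U (𝓝 ⟪a, z b⟫_ℂ)) : z ∈ M := by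
  rw [← VonNeumannAlgebra.commutant_commutant M, VonNeumannAlgebra.mem_commutant_iff]
  intro t ht
  rw [VonNeumannAlgebra.mem_commutant_iff] at ht
  ext v
  apply ext_inner_left ℂ
  intro u
  show ⟪u, t (z v)⟫_ℂ = ⟪u, z (t v)⟫_ℂ
  have h1 := hz u (t v)
  have h2 := hz (star t u) v
  have e1 : ∀ w : H, ⟪star t u, w⟫_ℂ = ⟪u, t w⟫_ℂ := fun w => by
    rw [ContinuousLinearMap.star_eq_adjoint, ContinuousLinearMap.adjoint_inner_left]
  rw [e1] at h2
  refine tendsto_nhds_unique (h2.congr fun n => ?_) h1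
  rw [e1]
  have e2 : x n * t = t * x n := ht (x n) (hx n)
  show ⟪u, (t * x n) v⟫_ℂ = ⟪u, (x n * t) v⟫_ℂ
  rw [e2]

theorem sa_of_wot (x : ℕ → (H →L[ℂ] H)) (U : Ultrafilter ℕ)
    (z : H →L[ℂ] H) (hx : ∀ n, star (x n) = x n)
    (hz : ∀ a b : H, Tendsto (fun n => ⟪a, x n b⟫_ℂ) U (𝓝 ⟪a, z b⟫_ℂ)) : star z = z := by
  ext v
  apply ext_inner_left ℂ
  intro u
  have e1 : ∀ (t : H →L[ℂ] H) (w w' : H), ⟪w, star t w'⟫_ℂ = ⟪t w, w'⟫_ℂ := fun t w w' => by
    rw [ContinuousLinearMap.star_eq_adjoint, ContinuousLinearMap.adjoint_inner_right]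
  rw [e1]
  have h1 := hz u v
  have h2 := hz v u
  have h3 := (Complex.continuous_conj.tendsto _).comp h2
  have e2 : (starRingEnd ℂ) ⟪v, z u⟫_ℂ = ⟪z u, v⟫_ℂ := inner_conj_symm _ _
  rw [e2] at h3
  refine (tendsto_nhds_unique (h3.congr fun n => ?_) h1)
  show (starRingEnd ℂ) ⟪v, x n u⟫_ℂ = ⟪u, x n v⟫_ℂ
  rw [inner_conj_symm, ← e1, hx n]

theorem corner_of_wot (p : H →L[ℂ] H) (x : ℕ → (H →L[ℂ] H)) (U : Ultrafilter ℕ)
    (z : H →L[ℂ] H) (hp : star p = p) (hx : ∀ n, p * x n * p = x n)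
    (hz : ∀ a b : H, Tendsto (fun n => ⟪a, x n b⟫_ℂ) U (𝓝 ⟪a, z b⟫_ℂ)) : p * z * p = z := by
  ext v
  apply ext_inner_left ℂ
  intro u
  have e1 : ∀ w : H, ⟪p u, w⟫_ℂ = ⟪u, p w⟫_ℂ := fun w => by
    conv_rhs => rw [← hp]
    rw [ContinuousLinearMap.star_eq_adjoint, ContinuousLinearMap.adjoint_inner_right]
  show ⟪u, p (z (p v))⟫_ℂ = ⟪u, z v⟫_ℂ
  have h1 := hz u v
  have h2 := hz (p u) (p v)
  rw [e1] at h2
  refine tendsto_nhds_unique (h2.congr fun n => ?_) h1
  rw [e1]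
  show ⟪u, (p * x n * p) v⟫_ℂ = _
  rw [hx n]

/-- a self-adjoint element of the corner `p M p` commuting with all the unitaries of the corner
commutes with the corner -/
theorem comm_corner (M : VonNeumannAlgebra H) (p z : H →L[ℂ] H) (hpM : p ∈ M) (hp : star p = p)
    (hpp : p * p = p) (hz : p * z * p = z) (hzs : star z = z)
    (hw : ∀ w ∈ M, star w * w = p → w * star w = p → star w * z * w = z) :
    ∀ x ∈ M, z * (p * x * p) = p * x * p * z := by
  have hpz : p * z = z := by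
    rw [← hz]; rw [← mul_assoc, ← mul_assoc, hpp]
  have hzp : z * p = z := by
    rw [← hz]; rw [mul_assoc, hpp]
  -- self-adjoint contractions
  have key : ∀ h : H →L[ℂ] H, h ∈ M → star h = h → p * h = h → h * p = h → ‖h‖ ≤ 1 →
      z * h = h * z := by
    intro h hh hs h1 h2 hn
    obtain ⟨u, hu1, hu2, hu3, hu4, hu5⟩ : ∃ u ∈ M, star u * u = 1 ∧ u * star u = 1 ∧
        p * u = u * p ∧ u + star u = (2 : ℂ) • h := by
      let a : selfAdjoint (H →L[ℂ] H) := ⟨h, hs⟩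
      refine ⟨(selfAdjoint.unitarySelfAddISMul a hn : H →L[ℂ] H), ?_, ?_, ?_, ?_, ?_⟩
      · show h + Complex.I • CFC.sqrt (1 - h ^ 2) ∈ M
        rw [← VonNeumannAlgebra.commutant_commutant M, VonNeumannAlgebra.mem_commutant_iff]
        intro t ht
        have c0 : Commute t h := by
          rw [VonNeumannAlgebra.mem_commutant_iff] at ht
          exact (ht h hh).symm
        have c1 : Commute t (1 - h ^ 2) := (Commute.one_right t).sub_right (c0.pow_right 2)
        have c2 : Commute t (CFC.sqrt (1 - h ^ 2)) := by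
          rw [CFC.sqrt]
          exact (c1.symm.cfcₙ_nnreal _).symm
        exact (c0.add_right (c2.smul_right Complex.I))
      · exact Unitary.coe_star_mul_self _
      · exact Unitary.coe_mul_star_self _
      · show p * (h + Complex.I • CFC.sqrt (1 - h ^ 2)) = (h + Complex.I • CFC.sqrt (1 - h ^ 2)) * p
        have c0 : Commute p h := h1.trans h2.symm
        have c1 : Commute p (1 - h ^ 2) := (Commute.one_right p).sub_right (c0.pow_right 2)
        have c2 : Commute p (CFC.sqrt (1 - h ^ 2)) := by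
          rw [CFC.sqrt]
          exact (c1.symm.cfcₙ_nnreal _).symm
        exact (c0.add_right (c2.smul_right Complex.I))
      · have e := selfAdjoint.star_coe_unitarySelfAddISMul a hn
        have e' : (selfAdjoint.unitarySelfAddISMul a hn : H →L[ℂ] H) +
            star (selfAdjoint.unitarySelfAddISMul a hn : H →L[ℂ] H) =
            (h + Complex.I • CFC.sqrt (1 - h ^ 2)) + (h - Complex.I • CFC.sqrt (1 - h ^ 2)) := by
          rw [e]; rfl
        refine e'.trans ?_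
        rw [two_smul]; abel
    have hsu : star u * p = p * star u := by
      have := congrArg star hu4
      rw [star_mul, star_mul, hp] at this
      exact this
    have e1 : star (p * u) * z * (p * u) = z := by
      apply hw (p * u) (mul_mem hpM hu1)
      · rw [star_mul, hp]
        calc star u * p * (p * u) = star u * (p * p) * u := by simp only [mul_assoc]
          _ = p * (star u * u) := by rw [hpp, hsu]; simp only [mul_assoc]
          _ = p := by rw [hu2, mul_one]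
      · rw [star_mul, hp]
        calc p * u * (star u * p) = p * (u * star u) * p := by simp only [mul_assoc]
          _ = p := by rw [hu3, mul_one, hpp]
    have e2 : star u * z * u = z := by
      rw [star_mul, hp] at e1
      calc star u * z * u = star u * (p * z * p) * u := by rw [hz]
        _ = star u * p * z * (p * u) := by simp only [mul_assoc]
        _ = z := e1
    have e3 : z * u = u * z := by
      calc z * u = (u * star u) * (z * u) := by rw [hu3, one_mul]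
        _ = u * (star u * z * u) := by simp only [mul_assoc]
        _ = u * z := by rw [e2]
    have e4 : z * star u = star u * z := by
      have := congrArg star e3
      rw [star_mul, star_mul, hzs] at this
      exact this.symm
    have e5 : z * ((2 : ℂ) • h) = ((2 : ℂ) • h) * z := by
      rw [← hu5, mul_add, add_mul, e3, e4]
    rw [mul_smul_comm, smul_mul_assoc] at e5
    have := congrArg (fun t => ((2 : ℂ)⁻¹) • t) e5
    simpa [smul_smul] using this
  -- self-adjoint elements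
  have key2 : ∀ h : H →L[ℂ] H, h ∈ M → star h = h → p * h = h → h * p = h →
      z * h = h * z := by
    intro h hh hs h1 h2
    have hpos : 0 < ‖h‖ + 1 := by positivity
    obtain ⟨r, hr⟩ : ∃ r : ℝ, r = (‖h‖ + 1)⁻¹ := ⟨_, rfl⟩
    have hr0 : 0 < r := by rw [hr]; positivity
    have k := key ((r : ℂ) • h) ?_ ?_ ?_ ?_ ?_
    · rw [mul_smul_comm, smul_mul_assoc] at k
      have hrc : (r : ℂ) ≠ 0 := by exact_mod_cast hr0.ne'
      exact smul_right_injective (H →L[ℂ] H) hrc k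
    · exact M.toStarSubalgebra.smul_mem hh _
    · rw [star_smul, hs]
      congr 1
      exact Complex.conj_ofReal r
    · rw [mul_smul_comm, h1]
    · rw [smul_mul_assoc, h2]
    · rw [norm_smul, Complex.norm_real, Real.norm_of_nonneg hr0.le, hr]
      rw [inv_mul_le_iff₀ hpos]; linarith
  intro x hx
  obtain ⟨y, hy⟩ : ∃ y, y = p * x * p := ⟨_, rfl⟩
  have hyM : y ∈ M := by rw [hy]; exact mul_mem (mul_mem hpM hx) hpM
  have hyp : y * p = y := by rw [hy, mul_assoc, hpp]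
  have hpy : p * y = y := by rw [hy, ← mul_assoc, ← mul_assoc, hpp]
  have hysM : star y ∈ M := star_mem hyM
  have hysp : star y * p = star y := by
    have := congrArg star hpy
    rwa [star_mul, hp] at this
  have hpys : p * star y = star y := by
    have := congrArg star hyp
    rwa [star_mul, hp] at this
  rw [← hy]
  have k1 := key2 (y + star y) (add_mem hyM hysM) (by rw [star_add, star_star, add_comm])
    (by rw [mul_add, hpy, hpys]) (by rw [add_mul, hyp, hysp])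
  have k2 := key2 (Complex.I • (y - star y))
    (M.toStarSubalgebra.smul_mem (sub_mem hyM hysM) _)
    (by
      rw [star_smul, star_sub, star_star]
      have : star Complex.I = -Complex.I := Complex.conj_I
      rw [this, neg_smul, ← smul_neg, neg_sub])
    (by rw [mul_smul_comm, mul_sub, hpy, hpys]) (by rw [smul_mul_assoc, sub_mul, hyp, hysp])
  rw [mul_smul_comm, smul_mul_assoc] at k2
  have k3 : z * (y - star y) = (y - star y) * z := by
    have := congrArg (fun t => (Complex.I⁻¹) • t) k2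
    simpa [smul_smul] using this
  rw [mul_add, add_mul] at k1
  rw [mul_sub, sub_mul] at k3
  have k4 : (2 : ℂ) • (z * y) = (2 : ℂ) • (y * z) := by
    rw [two_smul, two_smul]
    have := congrArg₂ (· + ·) k1 k3
    calc z * y + z * y = z * y + z * star y + (z * y - z * star y) := by abel
      _ = _ := this
      _ = y * z + y * z := by abel
  have := congrArg (fun t => ((2 : ℂ)⁻¹) • t) k4
  simpa [smul_smul] using this

/-- a positive element with vanishing trace is zero -/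
theorem zero_of_nonneg (M : VonNeumannAlgebra H) (ξ : H)
    (hf : ∀ x ∈ M, ⟪ξ, (star x * x) ξ⟫_ℂ = 0 → x = 0) (r : H →L[ℂ] H) (hr : r ∈ M)
    (hr0 : 0 ≤ r) (h : ⟪ξ, r ξ⟫_ℂ = 0) : r = 0 := by
  have hs1 : CFC.sqrt r * CFC.sqrt r = r := CFC.sqrt_mul_sqrt_self r hr0
  have hs2 : star (CFC.sqrt r) = CFC.sqrt r := (CFC.sqrt_nonneg r).isSelfAdjoint.star_eq
  have hs3 : CFC.sqrt r ∈ M := by
    rw [← VonNeumannAlgebra.commutant_commutant M, VonNeumannAlgebra.mem_commutant_iff]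
    intro t ht
    have c0 : Commute t r := by
      rw [VonNeumannAlgebra.mem_commutant_iff] at ht
      exact (ht r hr).symm
    have c2 : Commute t (CFC.sqrt r) := by
      rw [CFC.sqrt]
      exact (c0.symm.cfcₙ_nnreal _).symm
    exact c2
  have h1 := hf _ hs3 (by rw [hs2, hs1]; exact h)
  rw [← hs1, h1, mul_zero]

theorem scalar_corner (M : VonNeumannAlgebra H) (hM : HasTrivialCenter M) (ξ : H)
    (hf : ∀ x ∈ M, ⟪ξ, (star x * x) ξ⟫_ℂ = 0 → x = 0) (p a : H →L[ℂ] H)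
    (hp : star p = p) (haM : a ∈ M) (has : star a = a)
    (hpa : p * a = a) (hap : a * p = a)
    (hc : ∀ x ∈ M, a * (p * x * p) = p * x * p * a) (h0 : ⟪ξ, a ξ⟫_ℂ = 0) : a = 0 := by
  have hsa : IsSelfAdjoint a := has
  have hmem : ∀ q : H →L[ℂ] H, (∀ t : H →L[ℂ] H, Commute a t → Commute q t) → q ∈ M := by
    intro q hq
    rw [← VonNeumannAlgebra.commutant_commutant M, VonNeumannAlgebra.mem_commutant_iff]
    intro t ht
    rw [VonNeumannAlgebra.mem_commutant_iff] at ht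
    exact (hq t (ht a haM)).symm
  have cp : ∀ t : H →L[ℂ] H, Commute a t → Commute a⁺ t := fun t ht => by
    rw [CFC.posPart_def]; exact ht.cfcₙ_real _
  have cn : ∀ t : H →L[ℂ] H, Commute a t → Commute a⁻ t := fun t ht => by
    rw [CFC.negPart_def]; exact ht.cfcₙ_real _
  have hpM' := hmem _ cp
  have hnM' := hmem _ cn
  have hpn : a⁺ * a⁻ = 0 := CFC.posPart_mul_negPart a
  have hnp : a⁻ * a⁺ = 0 := CFC.negPart_mul_posPart a
  have hsub : a⁺ - a⁻ = a := CFC.posPart_sub_negPart a hsa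
  have hcp : Commute a p := hap.trans hpa.symm
  have p0 : (0 : H →L[ℂ] H) ≤ a⁺ := CFC.posPart_nonneg a
  have n0 : (0 : H →L[ℂ] H) ≤ a⁻ := CFC.negPart_nonneg a
  have sp : star (a⁺) = a⁺ := p0.isSelfAdjoint.star_eq
  have sn : star (a⁻) = a⁻ := n0.isSelfAdjoint.star_eq
  have hps : ∀ q : H →L[ℂ] H, star q = q → Commute q p → p * (q * q) = q * q →
      q * p = q := by
    intro q hq hqp h1
    have h2 : q - q * p = 0 := by
      apply (CStarRing.star_mul_self_eq_zero_iff _).1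
      rw [star_sub, star_mul, hq, hp, sub_mul, mul_sub, mul_sub]
      have e1 : q * (q * p) = q * q := by
        rw [← mul_assoc]
        have : Commute (q * q) p := hqp.mul_left hqp
        rw [this.eq, h1]
      have e2 : p * q * q = q * q := by rw [mul_assoc, h1]
      have e3 : p * q * (q * p) = q * q := by
        rw [mul_assoc, e1, h1]
      rw [e1, e2, e3]; simp
    exact (sub_eq_zero.1 h2).symm
  have hpP : a⁺ * p = a⁺ := by
    refine hps _ sp (cp p hcp) ?_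
    have h := congrArg (fun t => t * a⁺) hsub
    simp only [sub_mul, hnp, sub_zero] at h
    rw [h, ← mul_assoc, hpa]
  have hpN : a⁻ * p = a⁻ := by
    refine hps _ sn (cn p hcp) ?_
    have h := congrArg (fun t => t * a⁻) hsub
    simp only [sub_mul, hpn, zero_sub] at h
    have h' : a⁻ * a⁻ = -(a * a⁻) := by rw [← h, neg_neg]
    rw [h', mul_neg, ← mul_assoc, hpa]
  have hpN' : p * a⁻ = a⁻ := by rw [← (cn p hcp).eq, hpN]
  have hzero : ∀ x ∈ M, a⁺ * x * a⁻ = 0 := by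
    intro x hx
    have e1 : a⁺ * x * a⁻ = a⁺ * (p * x * p) * a⁻ := by
      calc a⁺ * x * a⁻ = (a⁺ * p) * x * (p * a⁻) := by rw [hpP, hpN']
        _ = _ := by simp only [mul_assoc]
    have e2 : Commute a⁺ (p * x * p) := cp _ (hc x hx)
    rw [e1, e2.eq, mul_assoc, hpn, mul_zero]
  have hinner : ⟪ξ, a⁺ ξ⟫_ℂ - ⟪ξ, a⁻ ξ⟫_ℂ = 0 := by
    rw [← inner_sub_right]
    have : a⁺ ξ - a⁻ ξ = a ξ := by
      conv_rhs => rw [← hsub]
      rfl
    rw [this, h0]
  rcases factor_corner M hM _ _ hpM' hnM' hzero with h | h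
  · have h1 : a⁻ = 0 := zero_of_nonneg M ξ hf _ hnM' n0 (by
      rw [h] at hinner
      simpa using hinner)
    rw [← hsub, h, h1, sub_zero]
  · have h1 : a⁺ = 0 := zero_of_nonneg M ξ hf _ hpM' p0 (by
      rw [h] at hinner
      simpa using hinner)
    rw [← hsub, h, h1, sub_zero]

theorem inner_sa (ξ : H) (x : H →L[ℂ] H) (hx : star x = x) :
    ⟪ξ, x ξ⟫_ℂ = (((⟪ξ, x ξ⟫_ℂ).re : ℝ) : ℂ) := by
  have e1 : (starRingEnd ℂ) ⟪ξ, x ξ⟫_ℂ = ⟪ξ, x ξ⟫_ℂ := by
    rw [inner_conj_symm]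
    conv_lhs => rw [← hx]
    rw [ContinuousLinearMap.star_eq_adjoint, ContinuousLinearMap.adjoint_inner_left]
  exact (Complex.conj_eq_iff_re.1 e1).symm

theorem unitary_corner (p w : H →L[ℂ] H) (hp : star p = p) (hpp : p * p = p)
    (h1 : star w * w = p) (h2 : w * star w = p) : p * w = w ∧ w * p = w := by
  have key : ∀ v : H →L[ℂ] H, star v * v = p → v * star v = p → p * v = v := by
    intro v h1 h2
    have h3 : v - p * v = 0 := by
      apply (CStarRing.star_mul_self_eq_zero_iff _).1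
      rw [star_sub, star_mul, hp, sub_mul, mul_sub, mul_sub]
      have e1 : star v * (p * v) = p := by
        rw [← h2]
        calc star v * (v * star v * v) = (star v * v) * (star v * v) := by simp only [mul_assoc]
          _ = v * star v := by rw [h1, hpp, h2]
      have e2 : star v * p * v = p := by rw [mul_assoc, e1]
      have e3 : star v * p * (p * v) = p := by
        rw [mul_assoc, ← mul_assoc p p v, hpp, e1]
      rw [h1, e1, e2, e3]; simp
    exact (sub_eq_zero.1 h3).symm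
  refine ⟨key w h1 h2, ?_⟩
  have h := key (star w) (by rw [star_star]; exact h2) (by rw [star_star]; exact h1)
  have := congrArg star h
  rwa [star_mul, star_star, hp] at this

theorem mix : Pool.Agent.W662.KKS.S_MIX := by
  intro H _ _ _ M ξ hM p hpM hp hpp y hyM hys hy z hzM hzs hz η hη
  have tr : ∀ a ∈ M, ∀ b ∈ M, ⟪ξ, (a * b) ξ⟫_ℂ = ⟪ξ, (b * a) ξ⟫_ℂ :=
    fun a ha b hb => hM.trace.tracial ⟨a, ha⟩ ⟨b, hb⟩
  have hf : ∀ x ∈ M, ⟪ξ, (star x * x) ξ⟫_ℂ = 0 → x = 0 := fun x hx h => by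
    have := hM.trace.faithful ⟨x, hx⟩ h
    exact congrArg Subtype.val this
  have hpz : p * z = z := by rw [← hz, ← mul_assoc, ← mul_assoc, hpp]
  have hzp : z * p = z := by rw [← hz, mul_assoc, hpp]
  have hyp : y * p = y := by rw [← hy, mul_assoc, hpp]
  by_cases hp0 : p = 0
  · refine ⟨0, zero_mem _, by simp [hp0], by simp [hp0], ?_⟩
    have hy0 : y = 0 := by rw [← hyp, hp0, mul_zero]
    simp [hy0]
    exact hη.le
  -- the conjugates
  obtain ⟨W, hW⟩ : ∃ W : Set (H →L[ℂ] H), W = {w | w ∈ M ∧ star w * w = p ∧ w * star w = p} :=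
    ⟨_, rfl⟩
  have hWc : ∀ w ∈ W, p * w = w ∧ w * p = w := by
    intro w hw
    rw [hW] at hw
    exact unitary_corner p w hp hpp hw.2.1 hw.2.2
  have hWm : ∀ v ∈ W, ∀ w ∈ W, v * w ∈ W := by
    intro v hv w hw
    have c1 := hWc v hv
    have c2 := hWc w hw
    rw [hW] at hv hw ⊢
    refine ⟨mul_mem hv.1 hw.1, ?_, ?_⟩
    · rw [star_mul]
      calc star w * star v * (v * w) = star w * (star v * v) * w := by simp only [mul_assoc]
        _ = star w * (p * w) := by rw [hv.2.1, mul_assoc]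
        _ = p := by rw [c2.1, hw.2.1]
    · rw [star_mul]
      calc v * w * (star w * star v) = v * (w * star w) * star v := by simp only [mul_assoc]
        _ = (v * p) * star v := by rw [hw.2.2]
        _ = p := by rw [c1.2, hv.2.2]
  obtain ⟨S, hS⟩ : ∃ S : Set (H →L[ℂ] H), S = {x | ∃ w ∈ W, x = star w * z * w} := ⟨_, rfl⟩
  obtain ⟨V, hV⟩ : ∃ V : Set (H →L[ℂ] H), V = convexHull ℝ S := ⟨_, rfl⟩
  have hVc : Convex ℝ V := by rw [hV]; exact convex_convexHull ℝ S
  have hpW : p ∈ W := by rw [hW]; exact ⟨hpM, by rw [hp, hpp], by rw [hp, hpp]⟩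
  have hzV : z ∈ V := by
    rw [hV]
    apply subset_convexHull
    rw [hS]
    exact ⟨p, hpW, by rw [hp, hz]⟩
  have rs : ∀ (a : ℝ) (x : H →L[ℂ] H), a • x = (a : ℂ) • x := fun a x => (Complex.coe_smul a x).symm
  have hcl : ∀ (P : (H →L[ℂ] H) → Prop), (∀ w ∈ W, P (star w * z * w)) →
      (∀ x1 x2 : H →L[ℂ] H, P x1 → P x2 → ∀ a b : ℝ, 0 ≤ a → 0 ≤ b → a + b = 1 →
        P ((a : ℂ) • x1 + (b : ℂ) • x2)) → ∀ x ∈ V, P x := by
    intro P h1 h2 x hx
    rw [hV] at hx
    have : convexHull ℝ S ⊆ {x | P x} := by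
      apply convexHull_min
      · intro x hx
        rw [hS] at hx
        obtain ⟨w, hw, rfl⟩ := hx
        exact h1 w hw
      · intro x1 hx1 x2 hx2 a b ha hb hab
        rw [rs a x1, rs b x2]
        exact h2 x1 x2 hx1 hx2 a b ha hb hab
    exact this hx
  have V1 : ∀ x ∈ V, x ∈ M := by
    apply hcl
    · intro w hw
      rw [hW] at hw
      exact mul_mem (mul_mem (star_mem hw.1) hzM) hw.1
    · intro x1 x2 h1 h2 a b _ _ _
      exact add_mem (M.toStarSubalgebra.smul_mem h1 _) (M.toStarSubalgebra.smul_mem h2 _)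
  have V2 : ∀ x ∈ V, star x = x := by
    apply hcl
    · intro w hw
      rw [star_mul, star_mul, star_star, hzs, mul_assoc]
    · intro x1 x2 h1 h2 a b _ _ _
      rw [star_add, star_smul, star_smul, h1, h2]
      congr 1 <;> congr 1 <;> exact Complex.conj_ofReal _
  have V3 : ∀ x ∈ V, p * x * p = x := by
    apply hcl
    · intro w hw
      have c := hWc w hw
      have c' : p * star w = star w := by
        have := congrArg star c.2
        rwa [star_mul, hp] at this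
      calc p * (star w * z * w) * p = (p * star w) * z * (w * p) := by simp only [mul_assoc]
        _ = _ := by rw [c', c.2]
    · intro x1 x2 h1 h2 a b _ _ _
      rw [mul_add, add_mul, mul_smul_comm, mul_smul_comm, smul_mul_assoc, smul_mul_assoc, h1, h2]
  have hWn : ∀ w ∈ W, ‖w‖ ≤ 1 := by
    intro w hw
    rw [hW] at hw
    have h1 : ‖w‖ * ‖w‖ = ‖p‖ := by rw [← hw.2.1]; exact (CStarRing.norm_star_mul_self).symm
    have h2 : ‖p‖ * ‖p‖ = ‖p‖ := by
      conv_rhs => rw [← hpp]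
      conv_rhs => rw [← hp]
      conv_rhs => rw [hp]
      nth_rw 3 [← hp]
      exact (CStarRing.norm_star_mul_self).symm
    have h3 : ‖p‖ ≤ 1 := by
      by_contra h
      push Not at h
      nlinarith
    have h4 : ‖w‖ * ‖w‖ ≤ 1 * 1 := by rw [h1]; linarith
    exact abs_le_of_sq_le_sq' (by nlinarith) zero_le_one |>.2
  have V4 : ∀ x ∈ V, ‖x‖ ≤ ‖z‖ := by
    apply hcl
    · intro w hw
      have h1 := hWn w hw
      calc ‖star w * z * w‖ ≤ ‖star w‖ * ‖z‖ * ‖w‖ :=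
            (norm_mul_le _ _).trans (mul_le_mul_of_nonneg_right (norm_mul_le _ _) (norm_nonneg _))
        _ = ‖w‖ * ‖z‖ * ‖w‖ := by rw [norm_star]
        _ ≤ 1 * ‖z‖ * 1 := by gcongr
        _ = ‖z‖ := by ring
    · intro x1 x2 h1 h2 a b ha hb hab
      calc ‖(a : ℂ) • x1 + (b : ℂ) • x2‖ ≤ ‖(a : ℂ) • x1‖ + ‖(b : ℂ) • x2‖ := norm_add_le _ _
        _ = a * ‖x1‖ + b * ‖x2‖ := by
            rw [norm_smul, norm_smul, Complex.norm_real, Complex.norm_real,
              Real.norm_of_nonneg ha, Real.norm_of_nonneg hb]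
        _ ≤ a * ‖z‖ + b * ‖z‖ := by gcongr
        _ = ‖z‖ := by rw [← add_mul, hab, one_mul]
  have V5 : ∀ x ∈ V, ⟪ξ, x ξ⟫_ℂ = ⟪ξ, z ξ⟫_ℂ := by
    apply hcl
    · intro w hw
      rw [hW] at hw
      have e1 : star w * z * w = star w * (z * w) := by rw [mul_assoc]
      rw [e1, tr _ (star_mem hw.1) _ (mul_mem hzM hw.1), mul_assoc, hw.2.2, hzp]
    · intro x1 x2 h1 h2 a b _ _ hab
      show ⟪ξ, (a : ℂ) • x1 ξ + (b : ℂ) • x2 ξ⟫_ℂ = _
      rw [inner_add_right, inner_smul_right, inner_smul_right, h1, h2, ← add_mul]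
      have : (a : ℂ) + (b : ℂ) = 1 := by exact_mod_cast hab
      rw [this, one_mul]
  have V6 : ∀ w ∈ W, ∀ x ∈ V, star w * x * w ∈ V := by
    intro w hw
    apply hcl
    · intro v hv
      rw [hV]
      apply subset_convexHull
      rw [hS]
      exact ⟨v * w, hWm v hv w hw, by rw [star_mul]; simp only [mul_assoc]⟩
    · intro x1 x2 h1 h2 a b ha hb hab
      rw [mul_add, add_mul, mul_smul_comm, mul_smul_comm, smul_mul_assoc, smul_mul_assoc,
        ← rs, ← rs]
      exact hVc h1 h2 ha hb hab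
  have V7 : ∀ w ∈ W, ∀ x ∈ V, ‖(star w * x * w) ξ‖ = ‖x ξ‖ := by
    intro w hw x hx
    have e0 : ∀ t : H →L[ℂ] H, ((‖t ξ‖ ^ 2 : ℝ) : ℂ) = ⟪ξ, (star t * t) ξ⟫_ℂ := by
      intro t
      show _ = ⟪ξ, star t (t ξ)⟫_ℂ
      rw [ContinuousLinearMap.star_eq_adjoint, ContinuousLinearMap.adjoint_inner_right,
        inner_self_eq_norm_sq_to_K]
      push_cast; rfl
    have hwM := hw
    rw [hW] at hwM
    have c := hWc w hw
    have hxp : x * p = x := by rw [← V3 x hx, mul_assoc, hpp]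
    have e1 : star (star w * x * w) * (star w * x * w) = star w * (x * x * w) := by
      rw [star_mul, star_mul, star_star, V2 x hx]
      calc star w * (x * w) * (star w * x * w) = star w * (x * (w * star w) * x * w) := by
            simp only [mul_assoc]
        _ = star w * (x * x * w) := by rw [hwM.2.2, hxp]
    have e2 : ((‖(star w * x * w) ξ‖ ^ 2 : ℝ) : ℂ) = ((‖x ξ‖ ^ 2 : ℝ) : ℂ) := by
      rw [e0, e0, e1, tr _ (star_mem hwM.1) _ (mul_mem (mul_mem (V1 x hx) (V1 x hx)) hwM.1),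
        mul_assoc (x * x) w (star w), hwM.2.2, mul_assoc x x p, hxp, V2 x hx]
    have e3 : ‖(star w * x * w) ξ‖ ^ 2 = ‖x ξ‖ ^ 2 := by exact_mod_cast e2
    exact (sq_eq_sq₀ (norm_nonneg _) (norm_nonneg _)).1 e3
  -- the minimal norm
  obtain ⟨m, hm⟩ : ∃ m : ℝ, m = sInf ((fun x : H →L[ℂ] H => ‖x ξ‖ ^ 2) '' V) := ⟨_, rfl⟩
  have hbdd : BddBelow ((fun x : H →L[ℂ] H => ‖x ξ‖ ^ 2) '' V) :=
    ⟨0, by rintro _ ⟨x, _, rfl⟩; positivity⟩
  have hm1 : ∀ x ∈ V, m ≤ ‖x ξ‖ ^ 2 := by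
    intro x hx
    rw [hm]
    exact csInf_le hbdd ⟨x, hx, rfl⟩
  have hm2 : ∀ n : ℕ, ∃ x ∈ V, ‖x ξ‖ ^ 2 < m + 1 / ((n : ℝ) + 1) := by
    intro n
    have hlt : sInf ((fun x : H →L[ℂ] H => ‖x ξ‖ ^ 2) '' V) < m + 1 / ((n : ℝ) + 1) := by
      rw [← hm]
      have : (0 : ℝ) < 1 / ((n : ℝ) + 1) := by positivity
      linarith
    have hne : ((fun x : H →L[ℂ] H => ‖x ξ‖ ^ 2) '' V).Nonempty :=
      ⟨_, Set.mem_image_of_mem _ hzV⟩
    obtain ⟨_, ⟨x, hx, rfl⟩, h⟩ := exists_lt_of_csInf_lt hne hlt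
    exact ⟨x, hx, h⟩
  choose x hxV hxm using hm2
  have hest : ∀ w ∈ W, ∀ n : ℕ,
      ‖(star w * x n * w - x n) ξ‖ ^ 2 ≤ 4 * (1 / ((n : ℝ) + 1)) := by
    intro w hw n
    have h1 : (((1 / 2 : ℝ) : ℂ)) • (star w * x n * w) + (((1 / 2 : ℝ) : ℂ)) • x n ∈ V := by
      rw [← rs, ← rs]
      exact hVc (V6 w hw _ (hxV n)) (hxV n) (by norm_num) (by norm_num) (by norm_num)
    have h2 := hm1 _ h1
    have h3 : ((((1 / 2 : ℝ) : ℂ)) • (star w * x n * w) + (((1 / 2 : ℝ) : ℂ)) • x n) ξ =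
        ((1 / 2 : ℝ) : ℂ) • ((star w * x n * w) ξ + x n ξ) := by
      rw [smul_add]; rfl
    rw [h3, norm_smul, Complex.norm_real, Real.norm_of_nonneg (by norm_num : (0 : ℝ) ≤ 1 / 2)] at h2
    have h4 := parallelogram_law_with_norm ℂ ((star w * x n * w) ξ) (x n ξ)
    have h5 := V7 w hw _ (hxV n)
    have h6 := hxm n
    have h7 : (star w * x n * w - x n) ξ = (star w * x n * w) ξ - x n ξ := rfl
    rw [h7]
    rw [h5] at h4
    nlinarith
  -- the limit
  obtain ⟨z0, hz0⟩ := wot_lim x ‖z‖ (fun n => V4 _ (hxV n)) (hyperfilter ℕ)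
  have hle : ((hyperfilter ℕ : Ultrafilter ℕ) : Filter ℕ) ≤ atTop := Nat.hyperfilter_le_atTop
  have z0M : z0 ∈ M := mem_of_wot M x _ z0 (fun n => V1 _ (hxV n)) hz0
  have z0s : star z0 = z0 := sa_of_wot x _ z0 (fun n => V2 _ (hxV n)) hz0
  have z0p : p * z0 * p = z0 := corner_of_wot p x _ z0 hp (fun n => V3 _ (hxV n)) hz0
  have z0t : ⟪ξ, z0 ξ⟫_ℂ = ⟪ξ, z ξ⟫_ℂ := by
    refine tendsto_nhds_unique (hz0 ξ ξ) ?_
    refine tendsto_const_nhds.congr fun n => ?_
    exact (V5 _ (hxV n)).symm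
  have hinv : ∀ w ∈ M, star w * w = p → w * star w = p → star w * z0 * w = z0 := by
    intro w hwM hw1 hw2
    have hw : w ∈ W := by rw [hW]; exact ⟨hwM, hw1, hw2⟩
    have hz : (star w * z0 * w - z0) ξ = 0 := by
      apply ext_inner_left ℂ
      intro u
      rw [inner_zero_right]
      have e1 : ∀ v : H, ⟪w u, v⟫_ℂ = ⟪u, star w v⟫_ℂ := fun v => by
        rw [ContinuousLinearMap.star_eq_adjoint, ContinuousLinearMap.adjoint_inner_right]
      have t1 := (hz0 (w u) (w ξ)).sub (hz0 u ξ)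
      have e2 : ∀ t : H →L[ℂ] H, ⟪w u, t (w ξ)⟫_ℂ - ⟪u, t ξ⟫_ℂ =
          ⟪u, (star w * t * w - t) ξ⟫_ℂ := by
        intro t
        rw [e1, ← inner_sub_right]
        rfl
      rw [e2] at t1
      refine tendsto_nhds_unique t1 ?_
      rw [tendsto_zero_iff_norm_tendsto_zero]
      have t2 : Tendsto (fun n : ℕ => ‖u‖ * Real.sqrt (4 * (1 / ((n : ℝ) + 1))))
          (hyperfilter ℕ : Ultrafilter ℕ) (𝓝 0) := by
        have : Tendsto (fun n : ℕ => ‖u‖ * Real.sqrt (4 * (1 / ((n : ℝ) + 1)))) atTop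
            (𝓝 (‖u‖ * Real.sqrt (4 * 0))) :=
          ((Real.continuous_sqrt.tendsto _).comp
            (tendsto_one_div_add_atTop_nhds_zero_nat.const_mul 4)).const_mul _
        rw [mul_zero, Real.sqrt_zero, mul_zero] at this
        exact this.mono_left hle
      refine squeeze_zero (fun n => norm_nonneg _) (fun n => ?_) t2
      rw [e2]
      refine (norm_inner_le_norm _ _).trans ?_
      refine mul_le_mul_of_nonneg_left ?_ (norm_nonneg _)
      exact Real.le_sqrt_of_sq_le (hest w hw n)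
    have hbM : star w * z0 * w - z0 ∈ M :=
      sub_mem (mul_mem (mul_mem (star_mem hwM) z0M) hwM) z0M
    have := hf _ hbM (by
      show ⟪ξ, star (star w * z0 * w - z0) ((star w * z0 * w - z0) ξ)⟫_ℂ = 0
      rw [hz, map_zero, inner_zero_right])
    exact sub_eq_zero.1 this
  have hcom := comm_corner M p z0 hpM hp hpp z0p z0s hinv
  -- the trace of `p`
  have hpt := inner_sa ξ p hp
  have hzt := inner_sa ξ z hzs
  obtain ⟨s, hs⟩ : ∃ s : ℝ, s = (⟪ξ, p ξ⟫_ℂ).re := ⟨_, rfl⟩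
  obtain ⟨t, ht⟩ : ∃ t : ℝ, t = (⟪ξ, z ξ⟫_ℂ).re := ⟨_, rfl⟩
  have hs0 : 0 < s := by
    have e1 : ⟪ξ, p ξ⟫_ℂ = ((‖p ξ‖ ^ 2 : ℝ) : ℂ) := by
      have : p ξ = star p (p ξ) := by
        rw [hp]
        show p ξ = (p * p) ξ
        rw [hpp]
      conv_lhs => rw [this]
      rw [ContinuousLinearMap.star_eq_adjoint, ContinuousLinearMap.adjoint_inner_right,
        inner_self_eq_norm_sq_to_K]
      push_cast; rfl
    have e2 : s = ‖p ξ‖ ^ 2 := by rw [hs, e1]; exact Complex.ofReal_re _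
    have e3 : s ≠ 0 := by
      intro h
      apply hp0
      apply hf p hpM
      rw [hp, hpp, hpt, ← hs, h]; rfl
    rw [e2] at e3 ⊢
    positivity
  have hsc : z0 = ((t / s : ℝ) : ℂ) • p := by
    have : z0 - ((t / s : ℝ) : ℂ) • p = 0 := by
      refine scalar_corner M hM.center ξ hf p _ hp
        (sub_mem z0M (M.toStarSubalgebra.smul_mem hpM _)) ?_ ?_ ?_ ?_ ?_
      · rw [star_sub, star_smul, z0s, hp]
        congr 2
        exact Complex.conj_ofReal _
      · rw [mul_sub, mul_smul_comm, hpp]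
        congr 1
        rw [← z0p, ← mul_assoc, ← mul_assoc, hpp]
      · rw [sub_mul, smul_mul_assoc, hpp]
        congr 1
        rw [← z0p, mul_assoc, hpp]
      · intro v hv
        rw [sub_mul, mul_sub, hcom v hv, smul_mul_assoc, mul_smul_comm]
        congr 2
        rw [← mul_assoc, ← mul_assoc, hpp, mul_assoc (p * v), hpp]
      · show ⟪ξ, z0 ξ - ((t / s : ℝ) : ℂ) • p ξ⟫_ℂ = 0
        rw [inner_sub_right, inner_smul_right, z0t, hzt, hpt, ← hs, ← ht]
        push_cast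
        have : (s : ℂ) ≠ 0 := by exact_mod_cast hs0.ne'
        field_simp
        ring
    exact sub_eq_zero.1 this
  -- conclusion
  have hlim : Tendsto (fun n => (⟪ξ, (y * x n) ξ⟫_ℂ).re) (hyperfilter ℕ : Ultrafilter ℕ)
      (𝓝 (⟪ξ, (y * z0) ξ⟫_ℂ).re) := by
    have e1 : ∀ v : H, ⟪y ξ, v⟫_ℂ = ⟪ξ, y v⟫_ℂ := fun v => by
      conv_rhs => rw [← hys]
      rw [ContinuousLinearMap.star_eq_adjoint, ContinuousLinearMap.adjoint_inner_right]
    have t1 := hz0 (y ξ) ξ
    rw [e1] at t1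
    refine (Complex.continuous_re.tendsto _).comp (t1.congr fun n => ?_)
    rw [e1]; rfl
  have hval : (⟪ξ, (y * z0) ξ⟫_ℂ).re = t / s * (⟪ξ, y ξ⟫_ℂ).re := by
    rw [hsc, mul_smul_comm, hyp]
    show (⟪ξ, ((t / s : ℝ) : ℂ) • y ξ⟫_ℂ).re = _
    rw [inner_smul_right, Complex.re_ofReal_mul]
  have hev : ∀ᶠ n in ((hyperfilter ℕ : Ultrafilter ℕ) : Filter ℕ),
      (⟪ξ, (y * x n) ξ⟫_ℂ).re < (⟪ξ, (y * z0) ξ⟫_ℂ).re + η / s := by
    apply hlim.eventually_lt_const
    have : 0 < η / s := by positivity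
    linarith
  obtain ⟨n, hn⟩ := hev.exists
  obtain ⟨w, hw, hwn⟩ : ∃ w ∈ W, (⟪ξ, (y * (star w * z * w)) ξ⟫_ℂ).re ≤
      (⟪ξ, (y * x n) ξ⟫_ℂ).re := by
    by_contra hcon
    push Not at hcon
    have : ∀ v ∈ V, (⟪ξ, (y * x n) ξ⟫_ℂ).re < (⟪ξ, (y * v) ξ⟫_ℂ).re := by
      apply hcl
      · exact hcon
      · intro x1 x2 h1 h2 a b ha hb hab
        have e1 : (⟪ξ, (y * ((a : ℂ) • x1 + (b : ℂ) • x2)) ξ⟫_ℂ).re =
            a * (⟪ξ, (y * x1) ξ⟫_ℂ).re + b * (⟪ξ, (y * x2) ξ⟫_ℂ).re := by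
          rw [mul_add, mul_smul_comm, mul_smul_comm]
          show (⟪ξ, (a : ℂ) • (y * x1) ξ + (b : ℂ) • (y * x2) ξ⟫_ℂ).re = _
          rw [inner_add_right, inner_smul_right, inner_smul_right, Complex.add_re,
            Complex.re_ofReal_mul, Complex.re_ofReal_mul]
        rw [e1]
        obtain ⟨c, hc⟩ : ∃ c : ℝ, c = (⟪ξ, (y * x n) ξ⟫_ℂ).re := ⟨_, rfl⟩
        rw [← hc] at h1 h2 ⊢
        rcases ha.eq_or_lt with h | h
        · have hb1 : b = 1 := by linarith
          rw [← h, hb1]; linarith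
        · have k1 : a * c < a * (⟪ξ, (y * x1) ξ⟫_ℂ).re := mul_lt_mul_of_pos_left h1 h
          have k2 : b * c ≤ b * (⟪ξ, (y * x2) ξ⟫_ℂ).re := mul_le_mul_of_nonneg_left h2.le hb
          have k3 : a * c + b * c = c := by rw [← add_mul, hab, one_mul]
          linarith
    exact lt_irrefl _ (this _ (hxV n))
  rw [hW] at hw
  refine ⟨w, hw.1, hw.2.1, hw.2.2, ?_⟩
  rw [← hs, ← ht]
  have k1 : (⟪ξ, (y * (star w * z * w)) ξ⟫_ℂ).re ≤ t / s * (⟪ξ, y ξ⟫_ℂ).re + η / s := by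
    rw [← hval]; linarith
  calc s * (⟪ξ, (y * (star w * z * w)) ξ⟫_ℂ).re
      ≤ s * (t / s * (⟪ξ, y ξ⟫_ℂ).re + η / s) := mul_le_mul_of_nonneg_left k1 hs0.le
    _ = (⟪ξ, y ξ⟫_ℂ).re * t + η := by field_simp

end Pool.Agent.W393.KKS
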