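import Mathlib
import Pool.Agent.W662.KKS.Defs2

set_option autoImplicit false
set_option linter.unusedSectionVars false

open scoped InnerProductSpace
open Pool.Agent.W662.KKS

namespace Pool.Agent.W393.KKS

section

variable {A B : Type} [Ring A] [StarRing A] [Algebra ℂ A] [Ring B] [StarRing B] [Algebra ℂ B]

theorem sle_map (θ : A ≃⋆ₐ[ℂ] B) {x y : A} (h : SLe x y) : SLe (θ x) (θ y) := by
  obtain ⟨z, hz⟩ := h
  exact ⟨θ z, by rw [← map_sub, hz, map_mul, map_star]⟩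

theorem sle_iff (θ : A ≃⋆ₐ[ℂ] B) (x y : A) : SLe (θ x) (θ y) ↔ SLe x y := by
  refine ⟨fun h => ?_, sle_map θ⟩
  have := sle_map θ.symm h
  rwa [θ.symm_apply_apply, θ.symm_apply_apply] at this

theorem isSup_map (θ : A ≃⋆ₐ[ℂ] B) {D : Set A} {s : A} (h : IsSup D s) :
    IsSup (θ '' D) (θ s) := by
  refine ⟨?_, ?_⟩
  · rintro _ ⟨x, hx, rfl⟩
    exact sle_map θ (h.1 x hx)
  · intro t ht h1
    have h2 := h.2 (θ.symm t) (by rw [← map_star, ht]) (fun x hx => by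
      have := h1 (θ x) ⟨x, hx, rfl⟩
      rw [← θ.apply_symm_apply t] at this
      exact (sle_iff θ _ _).1 this)
    have h3 := sle_map θ h2
    rwa [θ.apply_symm_apply] at h3

theorem normal_comp (θ : A ≃⋆ₐ[ℂ] B) {K : Type} [NormedAddCommGroup K]
    [InnerProductSpace ℂ K] [CompleteSpace K] (L : B →⋆ₐ[ℂ] (K →L[ℂ] K)) (hL : IsNormalRep L) :
    IsNormalRep (L.comp (θ : A →⋆ₐ[ℂ] B)) := by
  intro D s hD1 hD2 hs hD3 hsup ζ
  have h1 := hL (θ '' D) (θ s) (hD1.image _) (by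
    rintro _ ⟨x, hx, rfl⟩
    rw [← map_star, hD2 x hx]) (by rw [← map_star, hs]) (by
    rintro _ ⟨x, hx, rfl⟩ _ ⟨y, hy, rfl⟩
    obtain ⟨z, hz, h1, h2⟩ := hD3 x hx y hy
    exact ⟨θ z, ⟨z, hz, rfl⟩, sle_map θ h1, sle_map θ h2⟩) (isSup_map θ hsup) ζ
  rw [Set.image_image] at h1
  exact h1

/-- the opposite isomorphism -/
def opEquiv (θ : A ≃⋆ₐ[ℂ] B) : Aᵐᵒᵖ ≃⋆ₐ[ℂ] Bᵐᵒᵖ where
  toFun x := MulOpposite.op (θ x.unop)
  invFun x := MulOpposite.op (θ.symm x.unop)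
  left_inv x := by simp
  right_inv x := by simp
  map_mul' x y := by
    rw [MulOpposite.unop_mul, map_mul]; rfl
  map_add' x y := by
    rw [MulOpposite.unop_add, map_add]; rfl
  map_star' x := by
    rw [MulOpposite.unop_star, map_star]; rfl
  map_smul' c x := by
    rw [MulOpposite.unop_smul, map_smul]; rfl

end

theorem tiso : S_TISO := by
  intro A B _ _ _ _ _ _ ⟨θ⟩ hA ε hε
  obtain ⟨F, δ, hF, hδ, h⟩ := hA ε hε
  refine ⟨θ '' F, δ, hF.image _, hδ, ?_⟩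
  intro K _ _ _ L R hL hR hLR ξ hξ hξF
  obtain ⟨η, h1, h2⟩ := h K (L.comp (θ : A →⋆ₐ[ℂ] B))
    (R.comp (opEquiv θ : Aᵐᵒᵖ →⋆ₐ[ℂ] Bᵐᵒᵖ)) (normal_comp θ L hL)
    (normal_comp (opEquiv θ) R hR) (fun x y => hLR _ _) ξ hξ (fun x hx => hξF (θ x) ⟨x, hx, rfl⟩)
  refine ⟨η, fun x => ?_, h2⟩
  have := h1 (θ.symm x)
  have e1 : (L.comp (θ : A →⋆ₐ[ℂ] B)) (θ.symm x) = L x := by
    show L (θ (θ.symm x)) = L x
    rw [θ.apply_symm_apply]
  have e2 : (R.comp (opEquiv θ : Aᵐᵒᵖ →⋆ₐ[ℂ] Bᵐᵒᵖ)) (MulOpposite.op (θ.symm x)) =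
      R (MulOpposite.op x) := by
    show R (MulOpposite.op (θ (θ.symm x))) = _
    rw [θ.apply_symm_apply]
  rwa [e1, e2] at this

end Pool.Agent.W393.KKS
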