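import Mathlib
import Pool.Agent.W662.KKS.Defs2
import Pool.Agent.Helper278.Trace
import Pool.Agent.Helper467.FP.P_vn_dense

set_option autoImplicit false
set_option linter.unusedSectionVars false

open scoped InnerProductSpace Topology ENNReal
open Filter Pool.Agent.Helper278 MeasureTheory Pool.Agent.W662.KKS

namespace Pool.Agent.W393.KKS

/-- a countable family of bounded measurable functions which is dense in the 2-norm -/
theorem exists_dense_BM (X : Type) [MeasurableSpace X] [StandardBorelSpace X] (μ : Measure X)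
    [IsProbabilityMeasure μ] :
    ∃ f : ℕ → (X → ℂ), (∀ n, BM (f n)) ∧ ∀ g, BM g → ∀ ε : ℝ, 0 < ε →
      ∃ n, (∫ x, ‖g x - f n x‖ ^ 2 ∂μ) ≤ ε := by
  have hmem : ∀ g : X → ℂ, BM g → MemLp g 2 μ := by
    rintro g ⟨hg, C, hC⟩
    exact MemLp.of_bound hg.aestronglyMeasurable C (Eventually.of_forall hC)
  have : Fact ((1 : ℝ≥0∞) ≤ 2) := ⟨by norm_num⟩
  have : SecondCountableTopology (Lp ℂ 2 μ) := Lp.SecondCountableTopology
    (p_ne_top := ⟨by norm_num⟩)
  let T : {g : X → ℂ // BM g} → Lp ℂ 2 μ := fun g => (hmem g.1 g.2).toLp g.1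
  let S : Set (Lp ℂ 2 μ) := Set.range T
  have : Nonempty S := ⟨⟨T ⟨fun _ => 0, measurable_const, 0, by simp⟩, Set.mem_range_self _⟩⟩
  obtain ⟨d, hd⟩ := TopologicalSpace.exists_dense_seq S
  have hch : ∀ n, ∃ g : {g : X → ℂ // BM g}, T g = (d n : Lp ℂ 2 μ) := fun n => (d n).2
  choose f hf using hch
  refine ⟨fun n => (f n).1, fun n => (f n).2, ?_⟩
  intro g hg ε hε
  obtain ⟨_, ⟨n, rfl⟩, hn⟩ := Metric.mem_closure_iff.1
    (hd ⟨T ⟨g, hg⟩, Set.mem_range_self _⟩) (Real.sqrt ε) (Real.sqrt_pos.2 hε)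
  refine ⟨n, ?_⟩
  have h1 : ‖T ⟨g, hg⟩ - T (f n)‖ < Real.sqrt ε := by
    rw [hf n, ← dist_eq_norm]
    exact hn
  have h2 : ‖T ⟨g, hg⟩ - T (f n)‖ ^ 2 = ∫ x, ‖g x - (f n).1 x‖ ^ 2 ∂μ := by
    have e0 := @inner_self_eq_norm_sq ℂ (Lp ℂ 2 μ) _ _ _ (T ⟨g, hg⟩ - T (f n))
    rw [← e0, L2.inner_def]
    have e1 : (fun x => ⟪(T ⟨g, hg⟩ - T (f n)) x, (T ⟨g, hg⟩ - T (f n)) x⟫_ℂ) =ᵐ[μ]
        fun x => (((‖g x - (f n).1 x‖ ^ 2 : ℝ)) : ℂ) := by
      have a1 := Lp.coeFn_sub (T ⟨g, hg⟩) (T (f n))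
      have a2 := MemLp.coeFn_toLp (hmem g hg)
      have a3 := MemLp.coeFn_toLp (hmem (f n).1 (f n).2)
      filter_upwards [a1, a2, a3] with x h1 h2 h3
      rw [h1]
      show ⟪T ⟨g, hg⟩ x - T (f n) x, T ⟨g, hg⟩ x - T (f n) x⟫_ℂ = _
      have h2' : T ⟨g, hg⟩ x = g x := h2
      have h3' : T (f n) x = (f n).1 x := h3
      rw [h2', h3', inner_self_eq_norm_sq_to_K]
      push_cast; rfl
    rw [integral_congr_ae e1, integral_complex_ofReal]
    exact Complex.ofReal_re _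
  rw [← h2]
  have h3 : ‖T ⟨g, hg⟩ - T (f n)‖ ^ 2 ≤ (Real.sqrt ε) ^ 2 :=
    pow_le_pow_left₀ (norm_nonneg _) h1.le 2
  rwa [Real.sq_sqrt hε.le] at h3

theorem bm_mul {X : Type} [MeasurableSpace X] {f g : X → ℂ} (hf : BM f) (hg : BM g) :
    BM (fun x => f x * g x) := by
  obtain ⟨h1, C, hC⟩ := hf
  obtain ⟨h2, D, hD⟩ := hg
  refine ⟨h1.mul h2, C * D, fun x => ?_⟩
  rw [norm_mul]
  exact mul_le_mul (hC x) (hD x) (norm_nonneg _) ((norm_nonneg _).trans (hC x))

theorem bm_smul {X : Type} [MeasurableSpace X] {f : X → ℂ} (c : ℂ) (hf : BM f) :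
    BM (fun x => c * f x) := by
  obtain ⟨h1, C, hC⟩ := hf
  refine ⟨h1.const_mul c, ‖c‖ * C, fun x => ?_⟩
  rw [norm_mul]
  exact mul_le_mul_of_nonneg_left (hC x) (norm_nonneg _)

theorem bm_add {X : Type} [MeasurableSpace X] {f g : X → ℂ} (hf : BM f) (hg : BM g) :
    BM (fun x => f x + g x) := by
  obtain ⟨h1, C, hC⟩ := hf
  obtain ⟨h2, D, hD⟩ := hg
  exact ⟨h1.add h2, C + D, fun x => (norm_add_le _ _).trans (add_le_add (hC x) (hD x))⟩

theorem bm_star {X : Type} [MeasurableSpace X] {f : X → ℂ} (hf : BM f) :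
    BM (fun x => star (f x)) := by
  obtain ⟨h1, C, hC⟩ := hf
  refine ⟨Complex.continuous_conj.measurable.comp h1, C, fun x => ?_⟩
  rw [norm_star]; exact hC x

theorem bm_one {X : Type} [MeasurableSpace X] : BM (fun _ : X => (1 : ℂ)) :=
  ⟨measurable_const, 1, fun _ => by simp⟩

theorem xp : S_XP := by
  intro H _ _ _ M τ hM X _ _ μ _ Γ _ _ _ π u h
  classical
  -- the linear trace
  obtain ⟨T, hT⟩ : ∃ T : TracialState M, ∀ x, T.τ x = τ x :=
    ⟨mkState M τ hM.normal hM.trace, fun x => rfl⟩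
  have hA : TrAlg T.τ := trAlg T
  have hn2 : ∀ x : Elt M, norm2 τ x = n2 T.τ x := fun x => by
    unfold norm2 n2; rw [hT]
  -- bounded measurable functions are invariant
  have hBMg : ∀ (g : Γ) (f : X → ℂ), BM f → BM (fun x => f (g • x)) := by
    rintro g f ⟨h1, C, hC⟩
    exact ⟨h1.comp (h.mp g).measurable, C, fun x => hC _⟩
  -- generators
  obtain ⟨Y, hY⟩ : ∃ Y : Set (Elt M), Y = {z | ∃ f, BM f ∧ z = π f} ∪ {z | ∃ g, z = u g} :=
    ⟨_, rfl⟩
  have hMgen : M = Pool.Agent.H467F.vnGen ((fun x : Elt M => (x : H →L[ℂ] H)) '' Y) := by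
    have h0 := h.gen
    have h1 : ({z : H →L[ℂ] H | ∃ f, BM f ∧ z = π f} ∪ {z : H →L[ℂ] H | ∃ g, z = u g}) =
        ((fun x : Elt M => (x : H →L[ℂ] H)) '' Y) := by
      rw [hY]
      ext z
      constructor
      · rintro (⟨f, hf, rfl⟩ | ⟨g, rfl⟩)
        · exact ⟨π f, Or.inl ⟨f, hf, rfl⟩, rfl⟩
        · exact ⟨u g, Or.inr ⟨g, rfl⟩, rfl⟩
      · rintro ⟨z, (⟨f, hf, rfl⟩ | ⟨g, rfl⟩), rfl⟩
        · exact Or.inl ⟨f, hf, rfl⟩
        · exact Or.inr ⟨g, rfl⟩
    rw [h1] at h0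
    exact h0.symm
  -- the additive span of the products
  obtain ⟨Z, hZ⟩ : ∃ Z : AddSubmonoid (Elt M),
      Z = AddSubmonoid.closure {z | ∃ f g, BM f ∧ z = π f * u g} := ⟨_, rfl⟩
  have Zgen : ∀ f g, BM f → π f * u g ∈ Z := fun f g hf => by
    rw [hZ]; exact AddSubmonoid.subset_closure ⟨f, g, hf, rfl⟩
  have Zind : ∀ (P : Elt M → Prop), P 0 → (∀ x y, P x → P y → P (x + y)) →
      (∀ f g, BM f → P (π f * u g)) → ∀ z ∈ Z, P z := by
    intro P h0 h1 h2 z hz
    rw [hZ] at hz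
    induction hz using AddSubmonoid.closure_induction with
    | mem x hx => obtain ⟨f, g, hf, rfl⟩ := hx; exact h2 f g hf
    | zero => exact h0
    | add x y _ _ hx hy => exact h1 x y hx hy
  have Zsmul : ∀ (c : ℂ), ∀ z ∈ Z, c • z ∈ Z := by
    intro c
    apply Zind
    · rw [smul_zero]; exact Z.zero_mem
    · intro x y hx hy
      rw [smul_add]; exact Z.add_mem hx hy
    · intro f g hf
      rw [← smul_mul_assoc, ← h.smul c f hf]
      exact Zgen _ _ (bm_smul c hf)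
  have hus : ∀ g, star (u g) * u g = 1 := fun g => by
    rw [← h.u_inv, ← h.u_mul, inv_mul_cancel, h.u_one]
  have hcov : ∀ g f, BM f → u g * π f = π (fun x => f (g⁻¹ • x)) * u g := by
    intro g f hf
    rw [← h.cov g f hf, mul_assoc, hus, mul_one]
  have Zmul : ∀ z ∈ Z, ∀ w ∈ Z, z * w ∈ Z := by
    intro z hz
    refine Zind (fun w => z * w ∈ Z) ?_ ?_ ?_
    · show z * 0 ∈ Z
      rw [mul_zero]; exact Z.zero_mem
    · intro x y hx hy
      show z * (x + y) ∈ Z
      rw [mul_add]; exact Z.add_mem hx hy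
    · intro f g hf
      revert z
      apply Zind
      · rw [zero_mul]; exact Z.zero_mem
      · intro x y hx hy
        rw [add_mul]; exact Z.add_mem hx hy
      · intro f' g' hf'
        have e : π f' * u g' * (π f * u g) =
            π (fun x => f' x * f (g'⁻¹ • x)) * u (g' * g) := by
          rw [h.mul f' _ hf' (hBMg _ f hf), h.u_mul]
          calc π f' * u g' * (π f * u g) = π f' * (u g' * π f) * u g := by
                simp only [mul_assoc]
            _ = _ := by rw [hcov g' f hf]; simp only [mul_assoc]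
        rw [e]
        exact Zgen _ _ (bm_mul hf' (hBMg _ f hf))
  have Zstar : ∀ z ∈ Z, star z ∈ Z := by
    apply Zind
    · rw [star_zero]; exact Z.zero_mem
    · intro x y hx hy
      rw [star_add]; exact Z.add_mem hx hy
    · intro f g hf
      rw [star_mul, ← h.u_inv, ← h.conj f hf, hcov g⁻¹ _ (bm_star hf)]
      exact Zgen _ _ (hBMg _ _ (bm_star hf))
  have Zadj : ∀ z ∈ StarAlgebra.adjoin ℂ Y, z ∈ Z := by
    intro z hz
    induction hz using StarAlgebra.adjoin_induction with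
    | mem x hx =>
      rw [hY] at hx
      rcases hx with ⟨f, hf, rfl⟩ | ⟨g, rfl⟩
      · have := Zgen f 1 hf
        rwa [h.u_one, mul_one] at this
      · have := Zgen (fun _ => 1) g bm_one
        rwa [h.one, one_mul] at this
    | algebraMap c =>
      have h1 := Zgen (fun _ => 1) 1 bm_one
      rw [h.one, one_mul, h.u_one] at h1
      rw [Algebra.algebraMap_eq_smul_one]
      exact Zsmul c _ h1
    | add x y _ _ hx hy => exact Z.add_mem hx hy
    | mul x y _ _ hx hy => exact Zmul x hx y hy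
    | star x _ hx => exact Zstar x hx
  -- the countable set
  obtain ⟨F, hF1, hF2⟩ := exists_dense_BM X μ
  obtain ⟨D, hD⟩ : ∃ D : List (ℕ × Γ) → Elt M,
      ∀ l, D l = (l.map fun p => π (F p.1) * u p.2).sum := ⟨_, fun _ => rfl⟩
  have hpi_sub : ∀ f g, BM f → BM g → π f - π g = π (fun x => f x - g x) := by
    intro f g hf hg
    have e1 : (fun x => f x - g x) = (fun x => f x + (fun x => (-1) * g x) x) := by
      funext x; simp only; ring
    rw [e1, h.add f _ hf (bm_smul _ hg), h.smul _ g hg, neg_smul, one_smul, sub_eq_add_neg]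
  have hnorm : ∀ f g, BM f → n2 T.τ (π f * u g) ^ 2 = ∫ x, ‖f x‖ ^ 2 ∂μ := by
    intro f g hf
    rw [hA.n2_sq]
    have e1 : star (π f * u g) * (π f * u g) = (star (u g)) * ((star (π f) * π f) * u g) := by
      rw [star_mul]; simp only [mul_assoc]
    have e2 : T.τ (star (π f * u g) * (π f * u g)) = ∫ x, ((‖f x‖ ^ 2 : ℝ) : ℂ) ∂μ := by
      rw [e1, T.tracial, mul_assoc, ← h.u_inv, ← h.u_mul, mul_inv_cancel, ← h.conj f hf,
        ← h.mul _ _ (bm_star hf) hf, hT, (h.trace _ 1 (bm_mul (bm_star hf) hf)).1 rfl]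
      congr 1
      funext x
      show (starRingEnd ℂ) (f x) * f x = _
      rw [← Complex.normSq_eq_conj_mul_self, Complex.normSq_eq_norm_sq]
    rw [e2, integral_complex_ofReal]
    exact Complex.ofReal_re _
  have Zapp : ∀ z ∈ Z, ∀ ε : ℝ, 0 < ε → ∃ l, n2 T.τ (z - D l) ≤ ε := by
    apply Zind
    · intro ε hε
      refine ⟨[], ?_⟩
      rw [hD, List.map_nil, List.sum_nil, sub_zero, hA.n2_zero]
      exact hε.le
    · intro x y hx hy ε hε
      obtain ⟨l, hl⟩ := hx (ε / 2) (by linarith)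
      obtain ⟨k, hk⟩ := hy (ε / 2) (by linarith)
      refine ⟨l ++ k, ?_⟩
      have e : x + y - D (l ++ k) = (x - D l) + (y - D k) := by
        rw [hD, hD, hD, List.map_append, List.sum_append]; abel
      rw [e]
      exact (hA.n2_add_le _ _).trans (by linarith)
    · intro f g hf ε hε
      obtain ⟨n, hn⟩ := hF2 f hf (ε ^ 2) (by positivity)
      refine ⟨[(n, g)], ?_⟩
      have e : π f * u g - D [(n, g)] = π (fun x => f x - F n x) * u g := by
        rw [hD, List.map_singleton, List.sum_singleton, ← sub_mul, hpi_sub f _ hf (hF1 n)]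
      rw [e]
      have hsub : BM (fun x => f x - F n x) := by
        have e1 : (fun x => f x - F n x) = (fun x => f x + (fun x => (-1) * F n x) x) := by
          funext x; simp only; ring
        rw [e1]
        exact bm_add hf (bm_smul _ (hF1 n))
      have h1 := hnorm _ g hsub
      rw [← h1] at hn
      exact (sq_le_sq₀ (n2_nonneg _ _) hε.le).1 hn
  -- conclusion
  have : Countable Γ := inferInstance
  obtain ⟨φ, hφ⟩ := exists_surjective_nat (List (ℕ × Γ))
  refine ⟨fun n => D (φ n), ?_⟩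
  intro y ε hε
  obtain ⟨z, hz, hz1⟩ := Pool.Agent.H467F.vn_dense M τ hM.normal
    ⟨hM.trace.one, hM.trace.tracial, hM.trace.faithful⟩ Y hMgen y (ε / 2) (by linarith)
  obtain ⟨l, hl⟩ := Zapp z (Zadj z hz) (ε / 2) (by linarith)
  obtain ⟨n, hn⟩ := hφ l
  refine ⟨n, ?_⟩
  show norm2 τ (y - D (φ n)) ≤ ε
  rw [hn, hn2]
  have h1 : n2 T.τ (y - z) < ε / 2 := by
    have e : n2 T.τ (y - z) = Pool.Agent.H467F.n2 τ (y - z) := by
      unfold n2 Pool.Agent.H467F.n2; rw [hT]
    rw [e]; exact hz1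
  exact (hA.n2_tri y z (D l)).trans (by linarith)

end Pool.Agent.W393.KKS
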